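import Pool.Agent.H50.RC.Num

set_option autoImplicit false
set_option linter.unusedSectionVars false
set_option linter.unusedVariables false

/-! # The covering theorem with the sharp capacity -/

namespace Pool.Agent.H50.RC

open Finset Filter Pool.Agent.H50.SC

open scoped Classical

theorem sharp_prof' (ε : ℝ) (hε : 0 < ε) (hε1 : ε < 1) : ∀ᶠ L : ℝ in atTop,
    ∃ (H e z K : ℝ) (hh : Finset (Fin (PR H z).card) → ℝ),
      H = L ^ 3 ∧ e = ε / 32 ∧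
      L ^ e ≤ Real.log z ∧
      Real.log z ≤ ε ^ 2 / 1024 * L / Real.log L ∧
      Prof (eP H z) (eg H z) hh z K ∧
      (∀ s, hh s ≠ 0 → L ^ e ≤ Real.log (∏ i ∈ s, eP H z i)) ∧
      WW H * K * ((1 - ε / 16) * (1 - ε / 32) * Real.log L) ≤ 1 + ε / 32 := by
  filter_upwards [sharp_prof ε hε hε1] with L hL
  obtain ⟨z, K, hh, h1, h2, h3, h4, h5⟩ := hL
  exact ⟨L ^ 3, ε / 32, z, K, hh, rfl, rfl, h1, h2, h3, h4, h5⟩

theorem cover (ε : ℝ) (hε : 0 < ε) (hε1 : ε < 1) : ∀ᶠ L : ℝ in atTop,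
    ∀ h : ℝ, L ^ (1 / 2 : ℝ) ≤ h → h ≤ L ^ 2 →
    ∀ U : Finset ℕ, (∀ k ∈ U, 1 ≤ k ∧ (k : ℝ) ≤ h) →
    (U.card : ℝ) ≤ (1 - ε) / 2 * L * Real.log L * WW h →
    ∀ q₀ : ℕ, 0 < q₀ → (∀ p : ℕ, p.Prime → p ∣ q₀ → (p : ℝ) ≤ h) →
    ∀ a₀ A B : ℤ, A ≤ B → Real.exp ((1 - ε / 128) * L) ≤ ((B : ℝ) - A) / q₀ →
    ∃ a ∈ Finset.Ioc A B, (q₀ : ℤ) ∣ a - a₀ ∧
      ∀ k ∈ U, ∃ p : ℕ, p.Prime ∧ h < (p : ℝ) ∧ (p : ℝ) ≤ Real.exp (L / 4) ∧
        (p : ℤ) ∣ a + k := by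
  obtain ⟨C, hC0, hC⟩ := mertens_real
  filter_upwards [facts ε C hε hC0, sharp_prof' ε hε hε1] with L hfacts hprof
  obtain ⟨f1, f2, f3, f4, f5, f6, f7⟩ := hfacts
  obtain ⟨H, e, z, K, hh, hH, he, pz1, pz2, hP, hsupp, hcost⟩ := hprof
  intro h hh1 hh2 U hU hcard q₀ hq₀ hq₀' a₀ A B hAB hN
  obtain ⟨l, hl⟩ : ∃ l : ℝ, l = Real.log L := ⟨_, rfl⟩
  obtain ⟨θ, hθ⟩ : ∃ θ : ℝ, θ = ε / 128 := ⟨_, rfl⟩
  rw [← hl] at f2 f3 f4 f5 f6 pz2 hcost hcard
  rw [← hθ] at f3 f4 hN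
  rw [← he] at f3
  have he0 : 0 < e := by rw [he]; positivity
  have hθ0 : 0 < θ := by rw [hθ]; positivity
  have hL0 : 0 < L := by linarith
  have hl1 : 100 ≤ l := q1 L C l hC0 f2
  have hl0 : 0 < l := by linarith
  have hLexp : L = Real.exp l := by rw [hl]; exact (Real.exp_log hL0).symm
  have hLpow : ∀ m : ℕ, L ^ m = Real.exp (m * l) := by
    intro m
    rw [Real.exp_nat_mul, ← hLexp]
  have hl2L : l ^ 2 ≤ L := by
    refine f5.trans ?_
    calc L ^ (1 / 2 : ℝ) ≤ L ^ (1:ℝ) :=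
          Real.rpow_le_rpow_of_exponent_le (by linarith) (by norm_num)
      _ = L := Real.rpow_one L
  obtain ⟨hlL, hl4L, _⟩ := q2 L l ε f1 hl1 hl2L
  -- sizes of `h`, `H`
  have hsq : L ^ (1 / 2 : ℝ) = Real.exp (l / 2) := by
    rw [Real.rpow_def_of_pos hL0, ← hl]
    congr 1
    ring
  have hh51 : (51:ℝ) ≤ h := by
    rw [hsq] at hh1
    have := Real.add_one_le_exp (l / 2)
    linarith
  have hh0 : 0 < h := by linarith
  have hlogh : l / 2 ≤ Real.log h := by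
    rw [hsq] at hh1
    rw [Real.le_log_iff_exp_le hh0]
    exact hh1
  have hlogH : Real.log H = 3 * l := by rw [hH, Real.log_pow, hl]; push_cast; ring
  have hhH : h ≤ H := by
    refine hh2.trans ?_
    rw [hH]
    exact pow_le_pow_right₀ (by linarith) (by norm_num)
  have hH0 : 0 < H := by linarith
  -- `z`
  have hLe : L ^ e = Real.exp (e * l) := by
    rw [Real.rpow_def_of_pos hL0, mul_comm, hl]
  have hLe1 : 1 ≤ L ^ e := Real.one_le_rpow (by linarith) he0.le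
  have hlz0 : 0 < Real.log z := by linarith
  have hz0 : 0 < z := by linarith [hP.z1]
  have hzexp : z = Real.exp (Real.log z) := (Real.exp_log hz0).symm
  have hlzl : Real.log z * l ≤ ε ^ 2 / 1024 * L := by
    rwa [le_div_iff₀ hl0] at pz2
  obtain ⟨hlz16, hlz4, hlzL⟩ := q3 L l ε (Real.log z) f1 hl1 hε hε1 hlz0 hlzl
  have hHz : H ≤ z := by
    rw [← Real.log_le_log_iff hH0 hz0, hlogH]
    have h1 : 615 * l ^ 2 ≤ L ^ e := by
      have : θ * L ^ e ≤ 1 * L ^ e := by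
        apply mul_le_mul_of_nonneg_right _ (by linarith)
        rw [hθ]; linarith
      linarith
    exact q4 l _ _ hl1 h1 pz1
  -- the colours
  have hcardκ : (Fintype.card {k // k ∈ U} : ℝ) = U.card := by
    rw [Fintype.card_coe]
  obtain ⟨u, hu⟩ : ∃ u : ℝ, u = (Fintype.card {k // k ∈ U} : ℝ) := ⟨_, rfl⟩
  rw [← hu] at hcardκ
  have hu0 : 0 ≤ u := by rw [hu]; exact Nat.cast_nonneg _
  have hWh0 := WW_pos h
  have hWh1 := WW_le_one h
  have hucap : u ≤ (1 - ε) / 2 * L * l * WW h := by rw [hcardκ]; exact hcard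
  obtain ⟨huLl, huL2⟩ := q5 L l ε (WW h) u f1 hl1 hε hε1 hWh0 hWh1 hl2L hucap
  have huh : u ≤ h := by
    rw [hcardκ]
    have h1 : U ⊆ Finset.Icc 1 ⌊h⌋₊ := by
      intro k hk
      rw [Finset.mem_Icc]
      exact ⟨(hU k hk).1, Nat.le_floor (hU k hk).2⟩
    have h2 := Finset.card_le_card h1
    rw [Nat.card_Icc, Nat.add_sub_cancel] at h2
    calc (U.card : ℝ) ≤ (⌊h⌋₊ : ℝ) := by exact_mod_cast h2
      _ ≤ h := Nat.floor_le hh0.le
  -- the large primes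
  obtain ⟨P, hPdef⟩ : ∃ P : Fin (PR H z).card → ℝ, P = eP H z := ⟨_, rfl⟩
  obtain ⟨g, hg⟩ : ∃ g : Fin (PR H z).card → ℝ, g = eg H z := ⟨_, rfl⟩
  rw [← hPdef] at hP hsupp
  rw [← hg] at hP
  have hPH : ∀ i, H < P i := fun i => by
    rw [hPdef]
    exact ((mem_PR hz0.le).1 (emb_mem (PR H z) i)).2.1
  have hPz : ∀ i, P i ≤ z := fun i => by
    rw [hPdef]
    exact ((mem_PR hz0.le).1 (emb_mem (PR H z) i)).2.2
  have hP1 : ∀ i, 1 < P i := hP.p1
  have hg0 : ∀ i, 0 < g i := hP.g0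
  have hgP : ∀ i, g i = 1 / P i := fun i => by rw [hg, hPdef]
  have hgH : ∀ i, g i ≤ 1 / H := fun i => by
    rw [hgP]
    exact one_div_le_one_div_of_le hH0 (hPH i).le
  have hHinv : 1 / H ≤ 1 / 1000 := q6 H L f1 hH
  -- the small primes
  obtain ⟨gs, hgs⟩ : ∃ gs : Fin (PR h H).card → ℝ, gs = eg h H := ⟨_, rfl⟩
  have hsp : ∀ j : Fin (PR h H).card, h < ((emb (PR h H) j : ℕ) : ℝ) := fun j =>
    ((mem_PR hH0.le).1 (emb_mem (PR h H) j)).2.1
  have hgs0 : ∀ j, 0 ≤ gs j := fun j => by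
    rw [hgs]
    simp only [eg]
    positivity
  have hgs1 : ∀ j, gs j ≤ 1 / h := fun j => by
    rw [hgs]
    simp only [eg]
    exact one_div_le_one_div_of_le hh0 (hsp j).le
  have hgsu : ∀ j, u * gs j ≤ 1 := fun j => by
    calc u * gs j ≤ h * (1 / h) := mul_le_mul huh (hgs1 j) (hgs0 j) hh0.le
      _ = 1 := by field_simp
  have hgs1' : ∀ j, gs j ≤ 1 := fun j => by
    refine (hgs1 j).trans ?_
    rw [div_le_one hh0]
    linarith
  have hsumgs : ∑ j, gs j ≤ 3 := by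
    have h1 : ∑ j, gs j = ∑ p ∈ PR h H, 1 / (p : ℝ) := by
      rw [hgs]
      exact sum_emb (PR h H) (fun p => 1 / (p : ℝ))
    rw [h1]
    have h2 := (abs_le.1 (hC h H (by linarith) hhH)).2
    rw [hlogH] at h2
    exact n_gs l (Real.log h) C _ hC0 f2 hlogh (by linarith)
  have hgsum0 : 0 ≤ ∑ j, gs j := Finset.sum_nonneg fun j _ => hgs0 j
  -- the sum over the large primes
  have hG : ∑ i, g i ≤ l + C := by
    have h1 : ∑ i, g i = ∑ p ∈ PR H z, 1 / (p : ℝ) := by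
      rw [hg]
      exact sum_emb (PR H z) (fun p => 1 / (p : ℝ))
    rw [h1]
    have h2 := (abs_le.1 (hC H z (by linarith) hHz)).2
    exact n_G L l (Real.log z) (Real.log H) C _ f1 hl hC0 hlz0 (by linarith) hlogH hl1
      (by linarith)
  have hGn : 0 ≤ ∑ i, g i := Finset.sum_nonneg (fun i _ => (hg0 i).le)
  have hCl : C ≤ l / 100 := by linarith
  have hG2 : ∑ i, g i ≤ 2 * l := by linarith
  -- the weights
  obtain ⟨β, hβ⟩ : ∃ β : ℝ, β = ∏ j, (1 - gs j) := ⟨_, rfl⟩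
  have hWmul : WW h * β = WW H := by
    rw [hβ, hgs]
    exact WW_mul h H hh0.le hhH
  have hβ0 : 0 ≤ β := by
    rw [hβ]
    exact Finset.prod_nonneg fun j _ => by linarith [hgs1' j]
  -- parameters
  obtain ⟨Q, hQ⟩ : ∃ Q : ℝ, Q = Real.exp ((1 / 2 - ε / 16) * L) := ⟨_, rfl⟩
  have hQ0 : 0 < Q := by rw [hQ]; exact Real.exp_pos _
  have hQ1 : 1 ≤ Q := by
   rw [hQ]
   exact Real.one_le_exp (by
    have : 0 ≤ 1 / 2 - ε / 16 := by linarith
    positivity)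
  have hlogQ : Real.log Q = (1 / 2 - ε / 16) * L := by rw [hQ]; exact Real.log_exp _
  obtain ⟨J, hJ⟩ : ∃ J : ℕ, J = 2 * ⌈12 * l⌉₊ := ⟨_, rfl⟩
  have hJ1 : 24 * l ≤ (J:ℝ) := by
    have := Nat.le_ceil (12 * l)
    rw [hJ]; push_cast; linarith
  have hJ2 : (J:ℝ) ≤ 25 * l := by
    have := Nat.ceil_lt_add_one (show 0 ≤ 12 * l by positivity)
    rw [hJ]; push_cast; linarith
  have hJe : Even J := ⟨⌈12 * l⌉₊, by rw [hJ]; ring⟩
  obtain ⟨M, hM⟩ : ∃ M : ℕ, M = ⌊L ^ (1 - e)⌋₊ := ⟨_, rfl⟩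
  have hL1e : L ^ e * L ^ (1 - e) = L := by
    rw [← Real.rpow_add hL0]
    simp
  have hL1e0 : 0 < L ^ (1 - e) := Real.rpow_pos_of_pos hL0 _
  have hL1e1 : 1 ≤ L ^ (1 - e) := Real.one_le_rpow (by linarith) (by rw [he]; linarith)
  have hM1 : (M:ℝ) ≤ L ^ (1 - e) := by rw [hM]; exact Nat.floor_le hL1e0.le
  have hM2 : ((2 * M + 1 : ℕ) : ℝ) ≤ 3 * L ^ (1 - e) := by
    push_cast
    linarith
  have hM0 : (1:ℝ) ≤ ((2 * M + 1 : ℕ) : ℝ) := by
    push_cast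
    have : (0:ℝ) ≤ M := Nat.cast_nonneg _
    linarith
  obtain ⟨M', hM'⟩ : ∃ M' : ℝ, M' = ((2 * M + 1 : ℕ) : ℝ) := ⟨_, rfl⟩
  rw [← hM'] at hM2 hM0
  have hL1eL : L ^ (1 - e) ≤ L := q7 _ _ _ hLe1 hL1e0 hL1e
  obtain ⟨Js, hJs⟩ : ∃ Js : ℕ, Js = 2 * ⌈20 * l * M'⌉₊ := ⟨_, rfl⟩
  have hlM0 : 0 ≤ 20 * l * M' := by positivity
  have hJs1 : 40 * l * M' ≤ (Js:ℝ) := by
    have := Nat.le_ceil (20 * l * M')
    rw [hJs]; push_cast; linarith
  have hJs2 : (Js:ℝ) + 1 ≤ 41 * l * M' := by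
    have := Nat.ceil_lt_add_one hlM0
    rw [hJs]; push_cast
    exact q8 l M' hl1 hM0 _ this
  have hJse : Even Js := ⟨⌈20 * l * M'⌉₊, by rw [hJs]; ring⟩
  obtain ⟨ρ, hρ⟩ : ∃ ρ : ℝ, ρ = (1 / 3) ^ Js * Real.exp (9 * M') := ⟨_, rfl⟩
  have hρ0 : 0 ≤ ρ := by rw [hρ]; positivity
  obtain ⟨m, hm⟩ : ∃ m : ℝ, m = (((PR h H).card : ℕ) : ℝ) := ⟨_, rfl⟩
  have hm0 : 0 ≤ m := by rw [hm]; exact Nat.cast_nonneg _
  obtain ⟨Err, hErrdef⟩ : ∃ Err : ℝ, Err = 3 * (m * M' + 1) ^ (Js + 1) := ⟨_, rfl⟩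
  have hmM0 : 0 ≤ m * M' := by positivity
  have hErr0 : 0 ≤ Err := by rw [hErrdef]; positivity
  obtain ⟨N, hNdef⟩ : ∃ N : ℝ, N = ((B : ℝ) - A) / q₀ := ⟨_, rfl⟩
  rw [← hNdef] at hN
  have hN0 : 0 < N := lt_of_lt_of_le (Real.exp_pos _) hN
  obtain ⟨CV, hCVdef⟩ : ∃ CV : ℝ,
    CV = Q ^ (1 + θ) * Real.exp (2 * u * ∑ i, (P i) ^ (-(1 + θ))) := ⟨_, rfl⟩
  have hCV0 : 0 ≤ CV := by
    rw [hCVdef]
    exact mul_nonneg (Real.rpow_nonneg hQ0.le _) (Real.exp_pos _).le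
  -- number of small primes
  have hmH : m ≤ L ^ 3 := by
    rw [hm, ← hH]
    have h1 : PR h H ⊆ Finset.Icc 1 ⌊H⌋₊ := Finset.filter_subset _ _
    have h2 := Finset.card_le_card h1
    rw [Nat.card_Icc, Nat.add_sub_cancel] at h2
    calc (((PR h H).card : ℕ) : ℝ) ≤ (⌊H⌋₊ : ℝ) := by exact_mod_cast h2
      _ ≤ H := Nat.floor_le hH0.le
  obtain ⟨n, hn⟩ : ∃ n : ℝ, n = (((PR H z).card : ℕ) : ℝ) := ⟨_, rfl⟩
  have hn0 : 0 ≤ n := by rw [hn]; exact Nat.cast_nonneg _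
  have hn1 : n + 1 ≤ z := by
    rw [hn]
    have h1 : PR H z ⊆ Finset.Icc 2 ⌊z⌋₊ := by
      intro p hp
      have h2 := (mem_PR hz0.le).1 hp
      rw [Finset.mem_Icc]
      exact ⟨h2.1.two_le, Nat.le_floor h2.2.2⟩
    have h2 := Finset.card_le_card h1
    rw [Nat.card_Icc] at h2
    have h3 : 1 ≤ ⌊z⌋₊ := Nat.le_floor (by
      push_cast
      exact hP.z1.le)
    have h4 : (PR H z).card + 1 ≤ ⌊z⌋₊ := by omega
    calc (((PR H z).card : ℕ) : ℝ) + 1 ≤ (⌊z⌋₊ : ℝ) := by exact_mod_cast h4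
      _ ≤ z := Nat.floor_le hz0.le
  -- bound of the error term of the small primes
  have hErr : Err ≤ 3 * Real.exp (θ * L) := by
    rw [hErrdef]
    refine n_err L l e θ M' m (Js + 1) f1 hl0 hLexp hm0 hmH hM0 hM2
      (by linarith) ?_ f3 hL1e hL1e0
    push_cast
    exact hJs2
  -- bound of the number of assignments
  have hCV : CV ≤ Real.exp ((1 / 2 - ε / 16 + 3 / 2 * θ) * L) := by
    rw [hCVdef, hQ]
    exact n_cv L l H u ε θ P g f1 hl0 hε hε1 hθ hH hPH hgP hu0 huLl hG2 f4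
  have hzJ : z ^ J ≤ Real.exp (ε / 32 * L) := n_zJ L l ε z J f1 hε hε1 hz0 hlz0 hJ2 hlzl
  have hU1 : 1 + u * (n + 1) ^ J ≤ 2 * Real.exp ((ε / 32 + θ) * L) :=
    n_U1 L l ε θ z u n J f1 hε hθ hLexp hn0 hn1 hu0 (by linarith) f6 hzJ
  -- sizes of supports
  have hsuppc : ∀ D : Col (PR H z).card {k // k ∈ U}, qq P D ≤ Q → ((supp D).card : ℝ) ≤ L := by
    intro D hD
    have h1 : Real.exp ((supp D).card : ℝ) ≤ qq P D := by
      unfold qq
      rw [prod_nu1]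
      have : Real.exp ((supp D).card : ℝ) = ∏ i ∈ supp D, Real.exp 1 := by
        rw [Finset.prod_const, ← Real.exp_nat_mul, mul_one]
      rw [this]
      apply Finset.prod_le_prod
      · intro i _; exact (Real.exp_pos _).le
      · intro i _
        have := Real.exp_one_lt_d9
        linarith [hPH i]
    have h2 := h1.trans hD
    rw [hQ] at h2
    have h3 := Real.exp_le_exp.mp h2
    have : 0 < ε * L := by positivity
    linarith
  have hδ : ∀ D : Col (PR H z).card {k // k ∈ U}, qq P D ≤ Q → 2 * ∑ i with D i ≠ none, g i ≤ 2 / L ^ 2 := by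
    intro D hD
    have h1 : ∑ i with D i ≠ none, g i ≤ (supp D).card * (1 / H) := by
      have : ∑ i ∈ supp D, g i ≤ ∑ i ∈ supp D, (1 / H) := Finset.sum_le_sum (fun i _ => hgH i)
      rw [Finset.sum_const, nsmul_eq_mul] at this
      exact this
    have h2 := hsuppc D hD
    have h3 : ((supp D).card : ℝ) * (1 / H) ≤ L * (1 / H) :=
      mul_le_mul_of_nonneg_right h2 (by positivity)
    have h4 : L * (1 / H) = 1 / L ^ 2 := by rw [hH]; field_simp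
    have h6 : 2 / L ^ 2 = 2 * (1 / L ^ 2) := by ring
    rw [h6]
    linarith
  -- the capacity
  have hK0 : 0 ≤ K := hP.K0
  have hcap : u * β * (1 + ε / 32) * K ≤ (1 / 2 - ε / 4) * L :=
    n_cap L l ε u β K (WW h) (WW H) f1 hl0 hε hε1 hK0 hβ0 hWmul hucap hcost
  have htail : (u + 1 : ℝ) * ((2 / L ^ 2) ^ 2 + Real.exp (ε / 32 / Real.log z *
      (u * β * (1 + ε / 32) * K - Real.log (Q / z)))) ≤ 1 / 8 :=
    n_tail L l ε u _ Q z f1 hl0 hε hε1 hLexp hu0 huL2 hcap hQ0 hz0 hlogQ hlz0 hlz16 hlzl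
  have hmom : u * (1 / 3) ^ J * Real.exp ((2 + 6 * 3) * ∑ i, g i) ≤ 1 / 8 :=
    n_mom L l u _ J f1 hLexp hu0 (by linarith) hJ1 (by linarith)
  -- the first part of the final inequality
  have hfin1 : ρ * N * ((u + 1) ^ (2 * M + 1) *
      Real.exp (34 * (M' * ∑ i, g i))) ≤ N / 4 := by
    rw [hρ]
    exact n_fin1 L l u C _ N M' Js (2 * M + 1) f1 hLexp hu0 huL2 hJs1 hM'.symm hM0 hG
      (by linarith) hN0
  have hfin2 : Err * (CV * CV * (1 + u * (n + 1) ^ J)) < N / 4 := by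
    refine num_fin ε θ L l N Err CV _ hε hθ hL0 f7 hErr0 hCV0 ?_ hErr hCV hU1 hN
    positivity
  have hfin : ρ * N * ((u + 1) ^ (2 * M + 1) *
      Real.exp (34 * (M' * ∑ i, g i))) + Err * (CV * CV * (1 + u * (n + 1) ^ J)) < N / 2 := by
    linarith
  -- the set
  obtain ⟨𝒜, h𝒜⟩ : ∃ 𝒜 : Finset ℤ,
    𝒜 = (Finset.Ioc A B).filter (fun a => (q₀ : ℤ) ∣ a - a₀) := ⟨_, rfl⟩
  have hcnt : ∀ (D : Col (PR H z).card {k // k ∈ U}) (T : Finset {k // k ∈ U}),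
      qq P D ≤ Q * Q * z ^ J → T.card ≤ M + M + 1 →
      |((𝒜.filter (fun a => (∀ i, D i ≠ none → colr (PR H z) rs a i = D i) ∧
        T ⊆ aliveOf (colr (PR h H) rs a))).card : ℝ) -
        N * (nu g D * wS gs T)| ≤ ρ * (N * nu g D) + Err := by
    intro D T _ hT
    have h1 := count_alive (κ := {k // k ∈ U}) 𝒜 (colr (PR H z) rs) (colr (PR h H) rs) g gs
      (fun i => (hg0 i).le) hgs0 (by rw [← hu]; exact hgsu) N hN0.le
      (fun D E => by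
        rw [h𝒜, hNdef, hg, hgs]
        exact count_events h H z hh0.le hhH hHz U hU q₀ hq₀ hq₀' a₀ A B hAB D E)
      D T Js hJse 3 (by norm_num)
    refine h1.trans ?_
    have hT' : (T.card : ℝ) ≤ M' := by
      rw [hM']
      have : T.card ≤ 2 * M + 1 := by omega
      exact_mod_cast this
    have hT0 : (0:ℝ) ≤ T.card := Nat.cast_nonneg _
    have hν : 0 ≤ N * nu g D := by
      apply mul_nonneg hN0.le
      exact nu_nn hP D
    apply add_le_add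
    · apply mul_le_mul_of_nonneg_right _ hν
      rw [hρ]
      apply mul_le_mul_of_nonneg_left _ (by positivity)
      apply Real.exp_le_exp.2
      have h2 : (T.card : ℝ) * ∑ j, gs j ≤ M' * 3 := mul_le_mul hT' hsumgs hgsum0 (by linarith)
      linarith
    · rw [hErrdef, ← hm]
      apply mul_le_mul_of_nonneg_left _ (by norm_num)
      have h2 : m * T.card ≤ m * M' := mul_le_mul_of_nonneg_left hT' hm0
      have h3 : 0 ≤ m * T.card := mul_nonneg hm0 hT0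
      exact pow_le_pow_left₀ (by linarith) (by linarith) _
  have a1 : ∀ i, g i ≤ 1 := fun i => by linarith [hgH i]
  have a2 : ∀ i, 3 * 3 * g i ≤ 1 := fun i => by linarith [hgH i]
  have a3 : ∀ i, u * g i ≤ 1 := fun i => by
    have h1 : u * g i ≤ L ^ 2 * (1 / H) := mul_le_mul (by linarith) (hgH i) (hg0 i).le
      (by positivity)
    have h2 : L ^ 2 * (1 / H) = 1 / L := by rw [hH]; field_simp
    have h3 : 1 / L ≤ 1 := by rw [div_le_one hL0]; linarith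
    linarith
  have a4 : ∀ i, M' * g i ≤ 1 := fun i => by
    have h1 : M' * g i ≤ (3 * L) * (1 / H) := mul_le_mul (by linarith) (hgH i) (hg0 i).le
      (by positivity)
    have h2 : (3 * L) * (1 / H) = 3 / L ^ 2 := by rw [hH]; field_simp
    have h3 : 3 / L ^ 2 ≤ 1 := q9 L f1
    linarith
  have a5 : u * (2 / L ^ 2) ≤ 1 / 4 := by
    have h1 : u * (2 / L ^ 2) ≤ (L * l / 2) * (2 / L ^ 2) :=
      mul_le_mul_of_nonneg_right huLl (by positivity)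
    have e : (L * l / 2) * (2 / L ^ 2) = l / L := by field_simp
    have h2 : l / L ≤ 1 / 4 := q10 L l f1 hl4L
    linarith
  have a6 : ∀ D : Col (PR H z).card {k // k ∈ U}, yT P hh Q D ≠ 0 → (cs D).card ≤ M :=
    fun D hD => by
    have h1 := cs_card_le P hP1 hh Q (L ^ e) (by linarith) hQ0 hsupp D hD
    rw [hlogQ] at h1
    rw [hM]
    apply Nat.le_floor
    have h2 : ((cs D).card : ℝ) * L ^ e ≤ L ^ (1 - e) * L ^ e := by
      rw [mul_comm (L ^ (1 - e)), hL1e]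
      have : 0 < ε * L := by positivity
      linarith
    exact le_of_mul_le_mul_right h2 (by linarith)
  have a7 := count_assign' (κ := {k // k ∈ U}) P (fun i => (hP1 i).le) θ hθ0.le Q hQ0
  rw [← hu, ← hCVdef] at a7
  have hlast : ∃ a ∈ 𝒜, ∀ k ∈ (aliveOf (colr (PR h H) (rs (U := U)) a) :
      Finset {k // k ∈ U}), ∃ i, colr (PR H z) (rs (U := U)) a i = some k := by
    have b1 := Al_model (κ := {k // k ∈ U}) gs hgs0 (by rw [← hu]; exact hgsu)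
    have b2 := Wt_model (κ := {k // k ∈ U}) gs hgs0 (by rw [← hu]; exact hgsu) hgs1'
    rw [← hβ] at b2
    have hτ1 : ε / 32 ≤ 1 := by linarith
    have hτ0 : 0 < ε / 32 := by positivity
    clear hC hcap hWmul hcost hErr hCV hCVdef hErrdef hU1 hzJ hfin1 hfin2 hN hρ hNdef h𝒜
    subst hu
    subst hM'
    subst hn
    exact core_w (κ := {k // k ∈ U}) 𝒜 (colr (PR H z) rs)
      (fun a => aliveOf (colr (PR h H) rs a)) hP b2 b1 Q (2 / L ^ 2) 3 (ε / 32) N ρ Err CV J M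
      hJe (by norm_num) hN0 hρ0 hErr0 hτ0 hτ1 hQ1 hPz a1 a2 a3 a4 hδ a5 a6
      htail hmom a7 hcnt hfin
  obtain ⟨a, ha, hcov⟩ := hlast
  rw [h𝒜, Finset.mem_filter] at ha
  refine ⟨a, ha.1, ha.2, fun k hk => ?_⟩
  have hinjL := hinj_of h H z hz0.le hhH U hU
  have hinjS := hinj_of h h H hH0.le le_rfl U hU
  have hz4 : z ≤ Real.exp (L / 4) := by
    rw [hzexp]
    exact Real.exp_le_exp.2 hlz4
  by_cases halive : (⟨k, hk⟩ : {k // k ∈ U}) ∈ aliveOf (colr (PR h H) rs a)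
  · obtain ⟨i, hi⟩ := hcov ⟨k, hk⟩ halive
    have h1 := (colr_eq hinjL a i ⟨k, hk⟩).mp hi
    have h2 := (mem_PR hz0.le).1 (emb_mem (PR H z) i)
    refine ⟨emb (PR H z) i, h2.1, by linarith [h2.2.1], h2.2.2.trans hz4, ?_⟩
    have h3 : a - rs (emb (PR H z) i) (⟨k, hk⟩ : {k // k ∈ U}) = a + k := by
      unfold rs
      ring
    rw [h3] at h1
    exact h1
  · have h0 : ∃ j, colr (PR h H) rs a j = some (⟨k, hk⟩ : {k // k ∈ U}) := by
      by_contra hc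
      push Not at hc
      exact halive (Finset.mem_filter.2 ⟨mem_univ _, hc⟩)
    obtain ⟨i, hi⟩ := h0
    have h1 := (colr_eq hinjS a i ⟨k, hk⟩).mp hi
    have h2 := (mem_PR hH0.le).1 (emb_mem (PR h H) i)
    refine ⟨emb (PR h H) i, h2.1, h2.2.1, (h2.2.2.trans hHz).trans hz4, ?_⟩
    have h3 : a - rs (emb (PR h H) i) (⟨k, hk⟩ : {k // k ∈ U}) = a + k := by
      unfold rs
      ring
    rw [h3] at h1
    exact h1

end Pool.Agent.H50.RC
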