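import Pool.Agent.H50.RC.Ev
import Pool.Agent.H50.RC.Par1

set_option autoImplicit false
set_option linter.unusedSectionVars false

/-! # The covering theorem with the sharp capacity -/

namespace Pool.Agent.H50.RC

open Finset Filter Pool.Agent.H50.SC

open scoped Classical

lemma WW_mul (h H : ℝ) (h0 : 0 ≤ h) (hH : h ≤ H) :
    WW h * ∏ j, (1 - eg h H j) = WW H := by
  rw [prod_emb (PR h H) (fun p => 1 - 1 / (p : ℝ))]
  unfold WW
  rw [← Finset.prod_union]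
  · refine Finset.prod_congr ?_ fun _ _ => rfl
    ext p
    rw [Finset.mem_union, Finset.mem_filter, Finset.mem_filter, Finset.mem_Icc, Finset.mem_Icc,
      mem_PR (h0.trans hH), Nat.le_floor_iff h0, Nat.le_floor_iff (h0.trans hH)]
    constructor
    · rintro (⟨⟨h1, h2⟩, h3⟩ | ⟨h1, h2, h3⟩)
      · exact ⟨⟨h1, h2.trans hH⟩, h3⟩
      · exact ⟨⟨h1.one_lt.le, h3⟩, h1⟩
    · rintro ⟨⟨h1, h2⟩, h3⟩
      rcases le_or_gt (p : ℝ) h with h4 | h4
      · exact Or.inl ⟨⟨h1, h4⟩, h3⟩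
      · exact Or.inr ⟨h3, h4, h2⟩
  · rw [Finset.disjoint_left]
    intro p hp hp'
    rw [Finset.mem_filter, Finset.mem_Icc, Nat.le_floor_iff h0] at hp
    have := ((mem_PR (h0.trans hH)).1 hp').2.1
    linarith [hp.1.2]

/-- the number of colours used by an assignment with nonzero coefficient -/
lemma cs_card_le {n : ℕ} {κ : Type} [Fintype κ] [DecidableEq κ] (p : Fin n → ℝ)
    (hp : ∀ i, 1 < p i) (hh : Finset (Fin n) → ℝ) (Q l₀ : ℝ) (hl₀ : 0 < l₀) (hQ : 0 < Q)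
    (hs : ∀ s, hh s ≠ 0 → l₀ ≤ Real.log (∏ i ∈ s, p i)) (D : Col n κ)
    (hD : yT p hh Q D ≠ 0) : ((cs D).card : ℝ) * l₀ ≤ Real.log Q := by
  have h1 : qq p D ≤ Q := by
    by_contra hc
    exact hD (by unfold yT; rw [if_neg hc])
  have h2 : yy hh D ≠ 0 := by
    unfold yT at hD
    rw [if_pos h1] at hD
    exact hD
  have h3 : ∀ k ∈ cs D, l₀ ≤ Real.log (∏ i ∈ fib D k, p i) := by
    intro k hk
    apply hs
    intro h0
    apply h2
    unfold yy
    refine Finset.prod_eq_zero (mem_univ k) ?_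
    unfold al
    rw [if_neg, h0, mul_zero, neg_zero]
    intro he
    obtain ⟨i, hi⟩ := mem_cs.1 hk
    have : i ∈ fib D k := Pool.Agent.H50.SC.mem_fib.2 hi
    rw [he] at this
    exact absurd this (Finset.notMem_empty i)
  have hP : ∀ s : Finset (Fin n), 1 ≤ ∏ i ∈ s, p i := fun s => by
    calc (1 : ℝ) = ∏ i ∈ s, (1 : ℝ) := by simp
      _ ≤ ∏ i ∈ s, p i := Finset.prod_le_prod (fun _ _ => zero_le_one) fun i _ => (hp i).le
  have hq0 : 0 < qq p D := lt_of_lt_of_le one_pos (one_le_qq (fun i => (hp i).le) D)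
  calc ((cs D).card : ℝ) * l₀ = ∑ k ∈ cs D, l₀ := by rw [Finset.sum_const, nsmul_eq_mul]
    _ ≤ ∑ k ∈ cs D, Real.log (∏ i ∈ fib D k, p i) := Finset.sum_le_sum h3
    _ ≤ ∑ k, Real.log (∏ i ∈ fib D k, p i) :=
        Finset.sum_le_sum_of_subset_of_nonneg (Finset.subset_univ _)
          fun k _ _ => Real.log_nonneg (hP _)
    _ = Real.log (qq p D) := by
        rw [qq_eq_prod_fib, Real.log_prod]
        intro k _
        have := hP (fib D k)
        linarith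
    _ ≤ Real.log Q := Real.log_le_log hq0 h1

lemma num1 (ε : ℝ) (hε : 0 < ε) (hε1 : ε < 1) :
    (1 - ε) * (1 + ε / 32) * (1 + ε / 32) ≤ (1 - ε / 2) * ((1 - ε / 16) * (1 - ε / 32)) := by
  nlinarith [mul_pos hε hε, mul_pos (mul_pos hε hε) hε]

/-- all the largeness conditions -/
theorem facts (ε C : ℝ) (hε : 0 < ε) (hC : 0 ≤ C) : ∀ᶠ L : ℝ in atTop,
    1000 ≤ L ∧ 100 * (C + 1) ≤ Real.log L ∧
    615 * (Real.log L) ^ 2 ≤ ε / 128 * L ^ (ε / 32) ∧
    4 * (Real.log L) ^ 2 ≤ ε / 128 * L ^ (3 * (ε / 128)) ∧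
    (Real.log L) ^ 2 ≤ L ^ (1 / 2 : ℝ) ∧
    Real.log L ≤ (ε / 512) * L ∧ 10 * 128 ≤ ε * L := by
  have s1 : ∀ᶠ L : ℝ in atTop, 100 * (C + 1) ≤ Real.log L :=
    Real.tendsto_log_atTop.eventually_ge_atTop _
  have s2 := ev_logpow (ε / 32) (615 * (128 / ε)) (by positivity)
  have s3 := ev_logpow (3 * (ε / 128)) (4 * (128 / ε)) (by positivity)
  have s4 := ev_logpow (1 / 2) 1 (by norm_num)
  have s5 := ev_log (show (0:ℝ) < ε / 512 by positivity)
  filter_upwards [s1, s2, s3, s4, s5, eventually_ge_atTop (1000:ℝ),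
    eventually_ge_atTop (10 * 128 / ε)] with L a1 a2 a3 a4 a5 a6 a7
  refine ⟨a6, a1, ?_, ?_, by linarith, a5, ?_⟩
  · have h1 : 615 * (Real.log L) ^ 2 = ε / 128 * (615 * (128 / ε) * (Real.log L) ^ 2) := by
      field_simp
    rw [h1]
    exact mul_le_mul_of_nonneg_left a2 (by positivity)
  · have h1 : 4 * (Real.log L) ^ 2 = ε / 128 * (4 * (128 / ε) * (Real.log L) ^ 2) := by
      field_simp
    rw [h1]
    exact mul_le_mul_of_nonneg_left a3 (by positivity)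
  · rw [div_le_iff₀ hε] at a7
    linarith

/-- the final comparison -/
lemma num_fin (ε θ L l N Err CV U1 : ℝ) (hε : 0 < ε) (hθ : θ = ε / 128) (hL : 0 < L)
    (hεL : 10 * 128 ≤ ε * L) (hErr0 : 0 ≤ Err) (hCV0 : 0 ≤ CV) (hU0 : 0 ≤ U1)
    (hErr : Err ≤ 3 * Real.exp (θ * L))
    (hCV : CV ≤ Real.exp ((1 / 2 - ε / 16 + 3 / 2 * θ) * L))
    (hU1 : U1 ≤ 2 * Real.exp ((ε / 32 + θ) * L))
    (hN : Real.exp ((1 - θ) * L) ≤ N) :
    Err * (CV * CV * U1) < N / 4 := by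
  have h1 : Err * (CV * CV * U1) ≤ 3 * Real.exp (θ * L) *
      (Real.exp ((1 / 2 - ε / 16 + 3 / 2 * θ) * L) *
        Real.exp ((1 / 2 - ε / 16 + 3 / 2 * θ) * L) * (2 * Real.exp ((ε / 32 + θ) * L))) := by
    apply mul_le_mul hErr _ (by positivity) (by positivity)
    apply mul_le_mul _ hU1 hU0 (by positivity)
    exact mul_le_mul hCV hCV hCV0 (Real.exp_pos _).le
  have h2 : 3 * Real.exp (θ * L) *
      (Real.exp ((1 / 2 - ε / 16 + 3 / 2 * θ) * L) *
        Real.exp ((1 / 2 - ε / 16 + 3 / 2 * θ) * L) * (2 * Real.exp ((ε / 32 + θ) * L))) =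
      6 * (Real.exp ((1 - θ) * L) * Real.exp (-(6 * ε / 128 * L))) := by
    have e1 : Real.exp (θ * L) *
      (Real.exp ((1 / 2 - ε / 16 + 3 / 2 * θ) * L) *
        Real.exp ((1 / 2 - ε / 16 + 3 / 2 * θ) * L) * (Real.exp ((ε / 32 + θ) * L))) =
        Real.exp ((1 - θ) * L) * Real.exp (-(6 * ε / 128 * L)) := by
      rw [← Real.exp_add, ← Real.exp_add, ← Real.exp_add, ← Real.exp_add]
      congr 1
      rw [hθ]
      ring
    rw [← e1]
    ring
  rw [h2] at h1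
  refine lt_of_le_of_lt h1 ?_
  have h3 : Real.exp (-(6 * ε / 128 * L)) ≤ 1 / 61 := by
    rw [Real.exp_neg, ← one_div]
    apply one_div_le_one_div_of_le (by norm_num)
    have := Real.add_one_le_exp (6 * ε / 128 * L)
    linarith
  have h4 := Real.exp_pos ((1 - θ) * L)
  nlinarith

end Pool.Agent.H50.RC
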