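import Pool.Agent.H50.RC.Rg
import Pool.Agent.H50.RC.Cnt
import Pool.Agent.H50.SC.Par

set_option autoImplicit false
set_option linter.unusedSectionVars false

/-! # Counting the integers with prescribed patterns -/

namespace Pool.Agent.H50.RC

open Finset Pool.Agent.H50.SC

open scoped Classical

lemma crt2 (m₁ m₂ : ℤ) (h : IsCoprime m₁ m₂) (r₁ r₂ : ℤ) :
    ∃ r : ℤ, ∀ a : ℤ, (m₁ ∣ a - r₁ ∧ m₂ ∣ a - r₂) ↔ m₁ * m₂ ∣ a - r := by
  obtain ⟨u, v, huv⟩ := h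
  refine ⟨r₁ * (v * m₂) + r₂ * (u * m₁), fun a => ?_⟩
  have e1 : a - (r₁ * (v * m₂) + r₂ * (u * m₁)) = (a - r₁) + m₁ * (u * (r₁ - r₂)) := by
    have : v * m₂ = 1 - u * m₁ := by linarith
    rw [this]; ring
  have e2 : a - (r₁ * (v * m₂) + r₂ * (u * m₁)) = (a - r₂) + m₂ * (v * (r₂ - r₁)) := by
    have : u * m₁ = 1 - v * m₂ := by linarith
    rw [this]; ring
  constructor
  · rintro ⟨h1, h2⟩
    apply IsCoprime.mul_dvd ⟨u, v, huv⟩
    · rw [e1]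
      exact dvd_add h1 (dvd_mul_right _ _)
    · rw [e2]
      exact dvd_add h2 (dvd_mul_right _ _)
  · intro h
    constructor
    · have h1 := (dvd_mul_right m₁ m₂).trans h
      rw [e1] at h1
      exact (dvd_add_left (dvd_mul_right _ _)).1 h1
    · have h1 := (dvd_mul_left m₂ m₁).trans h
      rw [e2] at h1
      exact (dvd_add_left (dvd_mul_right _ _)).1 h1

/-- residues -/
def rs {U : Finset ℕ} (_ : ℕ) (k : {k // k ∈ U}) : ℤ := -((k : ℕ) : ℤ)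

lemma hinj_of (h a b : ℝ) (hb : 0 ≤ b) (hha : h ≤ a) (U : Finset ℕ)
    (hU : ∀ k ∈ U, 1 ≤ k ∧ (k : ℝ) ≤ h) :
    ∀ p ∈ PR a b, ∀ k l : {k // k ∈ U}, k ≠ l → ¬ ((p : ℤ) ∣ rs p k - rs p l) := by
  intro p hp k l hkl hdvd
  have h1 := (mem_PR hb).1 hp
  have hpk : ((k : ℕ) : ℝ) ≤ h := (hU k k.2).2
  have hpl : ((l : ℕ) : ℝ) ≤ h := (hU l l.2).2
  have hk1 := (hU k k.2).1
  have hl1 := (hU l l.2).1
  have hkp : (k : ℕ) < p := by
    have : ((k : ℕ) : ℝ) < p := by linarith [h1.2.1]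
    exact_mod_cast this
  have hlp : (l : ℕ) < p := by
    have : ((l : ℕ) : ℝ) < p := by linarith [h1.2.1]
    exact_mod_cast this
  unfold rs at hdvd
  have e : -((k : ℕ) : ℤ) - -((l : ℕ) : ℤ) = (l : ℕ) - (k : ℕ) := by ring
  rw [e] at hdvd
  have hne : ((l : ℕ) : ℤ) - (k : ℕ) ≠ 0 := by
    intro h0
    apply hkl
    apply Subtype.ext
    omega
  have := Int.le_of_dvd (abs_pos.2 hne) ((dvd_abs _ _).2 hdvd)
  have h3 : |((l : ℕ) : ℤ) - (k : ℕ)| < p := by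
    rw [abs_lt]
    constructor <;> omega
  omega

lemma qn_coprime_of {κ : Type} [Fintype κ] [DecidableEq κ] (PP : Finset ℕ) (hP : ∀ p ∈ PP, p.Prime)
    (D : Col PP.card κ) (q : ℕ) (hq : ∀ p ∈ PP, ¬ p ∣ q) : Nat.Coprime q (qn PP D) := by
  unfold qn
  apply Nat.Coprime.prod_right
  intro i _
  rw [Nat.coprime_comm, (hP _ (emb_mem PP i)).coprime_iff_not_dvd]
  exact hq _ (emb_mem PP i)

theorem count_events (h H z : ℝ) (hh : 0 ≤ h) (hhH : h ≤ H) (hHz : H ≤ z) (U : Finset ℕ)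
    (hU : ∀ k ∈ U, 1 ≤ k ∧ (k : ℝ) ≤ h) (q₀ : ℕ) (hq₀ : 0 < q₀)
    (hq₀' : ∀ p : ℕ, p.Prime → p ∣ q₀ → (p : ℝ) ≤ h) (a₀ A B : ℤ) (hAB : A ≤ B)
    (D : Col (PR H z).card {k // k ∈ U}) (E : Col (PR h H).card {k // k ∈ U}) :
    |((((Finset.Ioc A B).filter (fun a => (q₀ : ℤ) ∣ a - a₀)).filter (fun a =>
      (∀ i, D i ≠ none → colr (PR H z) rs a i = D i) ∧
      (∀ i, E i ≠ none → colr (PR h H) rs a i = E i))).card : ℝ) -
      (((B : ℝ) - A) / q₀) * (nu (fun i => 1 / ((emb (PR H z) i : ℕ) : ℝ)) D *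
        nu (fun i => 1 / ((emb (PR h H) i : ℕ) : ℝ)) E)| ≤ 1 := by
  have hH0 : 0 ≤ H := hh.trans hhH
  have hz0 : 0 ≤ z := hH0.trans hHz
  have hP1 : ∀ p ∈ PR H z, p.Prime := fun p hp => ((mem_PR hz0).1 hp).1
  have hP2 : ∀ p ∈ PR h H, p.Prime := fun p hp => ((mem_PR hH0).1 hp).1
  obtain ⟨r₁, hr₁⟩ := event_iff hP1 (hinj_of h H z hz0 hhH U hU) D
  obtain ⟨r₂, hr₂⟩ := event_iff hP2 (hinj_of h h H hH0 le_rfl U hU) E
  have c1 : Nat.Coprime (qn (PR h H) E) (qn (PR H z) D) := by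
    apply qn_coprime_of (PR H z) hP1 D
    intro p hp hpd
    have h1 := qn_primeFactors hP2 E (p := p) (by
      rw [Nat.mem_primeFactors]
      refine ⟨hP1 p hp, hpd, ?_⟩
      exact (qn_squarefree hP2 E).ne_zero)
    have h2 := ((mem_PR hH0).1 h1).2.2
    have h3 := ((mem_PR hz0).1 hp).2.1
    linarith
  have c2 : Nat.Coprime q₀ (qn (PR H z) D) := by
    apply qn_coprime_of (PR H z) hP1 D
    intro p hp hpd
    have h2 := hq₀' p (hP1 p hp) hpd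
    have h3 := ((mem_PR hz0).1 hp).2.1
    linarith
  have c3 : Nat.Coprime q₀ (qn (PR h H) E) := by
    apply qn_coprime_of (PR h H) hP2 E
    intro p hp hpd
    have h2 := hq₀' p (hP2 p hp) hpd
    have h3 := ((mem_PR hH0).1 hp).2.1
    linarith
  obtain ⟨r₃, hr₃⟩ := crt2 ((qn (PR H z) D : ℕ) : ℤ) ((qn (PR h H) E : ℕ) : ℤ)
    (Nat.isCoprime_iff_coprime.mpr c1.symm) r₁ r₂
  obtain ⟨r₄, hr₄⟩ := crt2 (q₀ : ℤ) (((qn (PR H z) D : ℕ) : ℤ) * ((qn (PR h H) E : ℕ) : ℤ))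
    (IsCoprime.mul_right (Nat.isCoprime_iff_coprime.mpr c2) (Nat.isCoprime_iff_coprime.mpr c3))
    a₀ r₃
  have hset : ((Finset.Ioc A B).filter (fun a => (q₀ : ℤ) ∣ a - a₀)).filter (fun a =>
      (∀ i, D i ≠ none → colr (PR H z) rs a i = D i) ∧
      (∀ i, E i ≠ none → colr (PR h H) rs a i = E i)) =
      (Finset.Ioc A B).filter (fun a =>
        ((q₀ * (qn (PR H z) D * qn (PR h H) E) : ℕ) : ℤ) ∣ a - r₄) := by
    rw [Finset.filter_filter]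
    apply Finset.filter_congr
    intro a _
    rw [hr₁ a, hr₂ a, hr₃ a]
    push_cast
    exact hr₄ a
  rw [hset]
  have hm : 1 ≤ q₀ * (qn (PR H z) D * qn (PR h H) E) := by
    have h1 := (qn_squarefree hP1 D).ne_zero
    have h2 := (qn_squarefree hP2 E).ne_zero
    exact Nat.one_le_iff_ne_zero.2 (mul_ne_zero hq₀.ne' (mul_ne_zero h1 h2))
  have h5 := count_ap A B hAB (q₀ * (qn (PR H z) D * qn (PR h H) E)) hm r₄
  have h6 : ((B : ℝ) - A) / q₀ * (nu (fun i => 1 / ((emb (PR H z) i : ℕ) : ℝ)) D *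
        nu (fun i => 1 / ((emb (PR h H) i : ℕ) : ℝ)) E) =
      ((B : ℝ) - A) / ((q₀ * (qn (PR H z) D * qn (PR h H) E) : ℕ) : ℝ) := by
    rw [nu_eq, nu_eq]
    push_cast
    rw [div_mul_div_comm, div_mul_div_comm]
    simp
  rw [h6]
  exact h5

end Pool.Agent.H50.RC
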