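import Pool.Agent.H50.RC.Wt

set_option autoImplicit false
set_option linter.unusedSectionVars false

/-! # The sharp profile -/

namespace Pool.Agent.H50.RC

open Finset Pool.Agent.H50.SC

variable {n : ℕ}

/-- scales -/
noncomputable def xs (l₀ lam : ℝ) (j : ℕ) : ℝ := lam ^ j * l₀

/-- mass of the sizes in `[e^{l₀}, e^{x_j}]` -/
noncomputable def Mj (p g : Fin n → ℝ) (l₀ lam : ℝ) (j : ℕ) : ℝ :=
  ∑ s : Finset (Fin n) with l₀ ≤ Real.log (∏ i ∈ s, p i) ∧
    Real.log (∏ i ∈ s, p i) ≤ xs l₀ lam j, ∏ i ∈ s, g i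

/-- mass of the sizes below `e^{l₀}` -/
noncomputable def A0 (p g : Fin n → ℝ) (l₀ : ℝ) : ℝ :=
  ∑ s : Finset (Fin n) with Real.log (∏ i ∈ s, p i) < l₀, ∏ i ∈ s, g i

/-- unnormalised profile -/
noncomputable def h0 (p : Fin n → ℝ) (l₀ lam : ℝ) (J : ℕ) (s : Finset (Fin n)) : ℝ :=
  if l₀ ≤ Real.log (∏ i ∈ s, p i) then
    ∑ j ∈ Finset.Icc 1 J, (if Real.log (∏ i ∈ s, p i) ≤ xs l₀ lam j then 1 / xs l₀ lam j else 0)
  else 0

/-- normalising sum -/
noncomputable def S0 (p g : Fin n → ℝ) (l₀ lam : ℝ) (J : ℕ) : ℝ :=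
  ∑ j ∈ Finset.Icc 1 J, Mj p g l₀ lam j / xs l₀ lam j

lemma xs_pos {l₀ lam : ℝ} (hl₀ : 0 < l₀) (hlam : 1 < lam) (j : ℕ) : 0 < xs l₀ lam j := by
  unfold xs
  positivity

lemma xs_mono {l₀ lam : ℝ} (hl₀ : 0 < l₀) (hlam : 1 < lam) {i j : ℕ} (hij : i ≤ j) :
    xs l₀ lam i ≤ xs l₀ lam j := by
  unfold xs
  exact mul_le_mul_of_nonneg_right (pow_le_pow_right₀ hlam.le hij) hl₀.le

/-- geometric tail: the sum over the scales above `v ≥ 0` is at most `λ/((λ-1) v)` -/
lemma geo_tail {l₀ lam : ℝ} (hl₀ : 0 < l₀) (hlam : 1 < lam) (J : ℕ) (v : ℝ) (hv : 0 < v) :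
    v * ∑ j ∈ Finset.Icc 1 J, (if v ≤ xs l₀ lam j then 1 / xs l₀ lam j else 0) ≤
      lam / (lam - 1) := by
  have hl1 : 0 < lam - 1 := by linarith
  have key : ∀ J : ℕ, v * ∑ j ∈ Finset.Icc 1 J,
      (if v ≤ xs l₀ lam j then 1 / xs l₀ lam j else 0) ≤
      max 0 (lam / (lam - 1) - v / ((lam - 1) * xs l₀ lam J)) := by
    intro J
    induction J with
    | zero =>
      simp
    | succ J ih =>
      rw [Finset.sum_Icc_succ_top (by omega), mul_add]
      by_cases hc : v ≤ xs l₀ lam (J + 1)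
      · rw [if_pos hc]
        have hx := xs_pos hl₀ hlam J
        have hx1 := xs_pos hl₀ hlam (J + 1)
        have hxx : xs l₀ lam (J + 1) = lam * xs l₀ lam J := by
          unfold xs
          rw [pow_succ]
          ring
        refine le_max_of_le_right ?_
        by_cases hc' : v ≤ xs l₀ lam J
        · have h1 : max 0 (lam / (lam - 1) - v / ((lam - 1) * xs l₀ lam J)) =
              lam / (lam - 1) - v / ((lam - 1) * xs l₀ lam J) := by
            apply max_eq_right
            rw [sub_nonneg, div_le_div_iff₀ (by positivity) hl1]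
            nlinarith
          rw [h1] at ih
          have h2 : v / ((lam - 1) * xs l₀ lam J) - v / ((lam - 1) * xs l₀ lam (J + 1)) =
              v * (1 / xs l₀ lam (J + 1)) := by
            rw [hxx]
            field_simp
          linarith
        · push Not at hc'
          have h1 : ∑ j ∈ Finset.Icc 1 J,
              (if v ≤ xs l₀ lam j then 1 / xs l₀ lam j else 0) = 0 := by
            refine Finset.sum_eq_zero fun j hj => ?_
            rw [if_neg]
            push Not
            exact lt_of_le_of_lt (xs_mono hl₀ hlam (Finset.mem_Icc.1 hj).2) hc'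
          rw [h1, mul_zero, zero_add]
          have h3 : v * (1 / xs l₀ lam (J + 1)) + v / ((lam - 1) * xs l₀ lam (J + 1)) =
              (v / xs l₀ lam (J + 1)) * (lam / (lam - 1)) := by
            field_simp
            ring
          have h4 : v / xs l₀ lam (J + 1) ≤ 1 := (div_le_one hx1).2 hc
          have h5 : 0 < lam / (lam - 1) := by positivity
          nlinarith
      · rw [if_neg hc, mul_zero, add_zero]
        push Not at hc
        have h1 : ∑ j ∈ Finset.Icc 1 J,
            (if v ≤ xs l₀ lam j then 1 / xs l₀ lam j else 0) = 0 := by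
          refine Finset.sum_eq_zero fun j hj => ?_
          rw [if_neg]
          push Not
          exact lt_of_le_of_lt (xs_mono hl₀ hlam
            ((Finset.mem_Icc.1 hj).2.trans (Nat.le_succ J))) hc
        rw [h1, mul_zero]
        exact le_max_left _ _
  refine (key J).trans (max_le (by positivity) ?_)
  have hx := xs_pos hl₀ hlam J
  have : 0 ≤ v / ((lam - 1) * xs l₀ lam J) := by positivity
  linarith

/-- sum over all scales -/
lemma geo_all {l₀ lam : ℝ} (hl₀ : 0 < l₀) (hlam : 1 < lam) (J : ℕ) :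
    ∑ j ∈ Finset.Icc 1 J, 1 / xs l₀ lam j ≤ 1 / (l₀ * (lam - 1)) := by
  have hl1 : 0 < lam - 1 := by linarith
  have key : ∀ J : ℕ, ∑ j ∈ Finset.Icc 1 J, 1 / xs l₀ lam j ≤
      1 / (l₀ * (lam - 1)) - 1 / (xs l₀ lam J * (lam - 1)) := by
    intro J
    induction J with
    | zero =>
      simp [xs]
    | succ J ih =>
      rw [Finset.sum_Icc_succ_top (by omega)]
      have hx := xs_pos hl₀ hlam J
      have hx1 := xs_pos hl₀ hlam (J + 1)
      have hxx : xs l₀ lam (J + 1) = lam * xs l₀ lam J := by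
        unfold xs
        rw [pow_succ]
        ring
      have h2 : 1 / (xs l₀ lam J * (lam - 1)) - 1 / (xs l₀ lam (J + 1) * (lam - 1)) =
          1 / xs l₀ lam (J + 1) := by
        rw [hxx]
        field_simp
      linarith
  refine (key J).trans ?_
  have hx := xs_pos hl₀ hlam J
  have : 0 ≤ 1 / (xs l₀ lam J * (lam - 1)) := by positivity
  linarith

theorem exists_prof (p g : Fin n → ℝ) (hp : ∀ i, 1 < p i) (hg : ∀ i, 0 < g i) (l₀ lam : ℝ)
    (hl₀ : 0 < l₀) (hlam : 1 < lam) (J : ℕ) (hS : 0 < S0 p g l₀ lam J)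
    (hsmall : A0 p g l₀ / (l₀ * (lam - 1)) ≤ S0 p g l₀ lam J) :
    Prof p g (fun s => (1 / S0 p g l₀ lam J) * h0 p l₀ lam J s) (Real.exp (xs l₀ lam J))
      (1 / S0 p g l₀ lam J * (lam / (lam - 1))) := by
  have hl1 : 0 < lam - 1 := by linarith
  set S := S0 p g l₀ lam J with hSdef
  have hPpos : ∀ s : Finset (Fin n), 0 < ∏ i ∈ s, p i :=
    fun s => Finset.prod_pos (fun i _ => lt_trans one_pos (hp i))
  have hGpos : ∀ s : Finset (Fin n), 0 < ∏ i ∈ s, g i :=
    fun s => Finset.prod_pos (fun i _ => hg i)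
  have hP1 : ∀ s : Finset (Fin n), 1 ≤ ∏ i ∈ s, p i := by
    intro s
    calc (1 : ℝ) = ∏ _i ∈ s, (1 : ℝ) := by simp
      _ ≤ ∏ i ∈ s, p i := Finset.prod_le_prod (fun _ _ => zero_le_one) (fun i _ => (hp i).le)
  have hlogmono : ∀ s t : Finset (Fin n), s ⊆ t →
      Real.log (∏ i ∈ s, p i) ≤ Real.log (∏ i ∈ t, p i) := by
    intro s t hst
    refine Real.log_le_log (hPpos s) ?_
    rw [← Finset.prod_sdiff hst]
    calc ∏ i ∈ s, p i = 1 * ∏ i ∈ s, p i := (one_mul _).symm
      _ ≤ (∏ i ∈ t \ s, p i) * ∏ i ∈ s, p i :=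
        mul_le_mul_of_nonneg_right (hP1 _) (hPpos s).le
  have hxp : ∀ j, 0 < xs l₀ lam j := fun j => xs_pos hl₀ hlam j
  have hh0 : ∀ s, 0 ≤ h0 p l₀ lam J s := by
    intro s
    unfold h0
    split_ifs
    · refine Finset.sum_nonneg fun j _ => ?_
      have := hxp j
      split_ifs <;> positivity
    · exact le_rfl
  have hhmax : ∀ s, h0 p l₀ lam J s ≤ 1 / (l₀ * (lam - 1)) := by
    intro s
    unfold h0
    split_ifs
    · refine le_trans (Finset.sum_le_sum fun j _ => ?_) (geo_all hl₀ hlam J)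
      have := hxp j
      split_ifs
      · exact le_rfl
      · positivity
    · positivity
  have hA1 : 1 ≤ A0 p g l₀ := by
    unfold A0
    have h1 : (∅ : Finset (Fin n)) ∈ univ.filter
        (fun s : Finset (Fin n) => Real.log (∏ i ∈ s, p i) < l₀) := by
      simp [hl₀]
    have h2 := Finset.single_le_sum (f := fun s : Finset (Fin n) => ∏ i ∈ s, g i)
      (fun s _ => (hGpos s).le) h1
    simpa using h2
  have hSmax : 1 / (l₀ * (lam - 1)) ≤ S := by
    refine le_trans ?_ hsmall
    exact div_le_div_of_nonneg_right hA1 (by positivity)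
  have hne : ∀ s, h0 p l₀ lam J s ≠ 0 → s.Nonempty := by
    intro s hs
    rw [Finset.nonempty_iff_ne_empty]
    rintro rfl
    apply hs
    unfold h0
    rw [if_neg]
    simp [hl₀]
  have hsumS : ∑ s : Finset (Fin n), h0 p l₀ lam J s * ∏ i ∈ s, g i = S := by
    rw [hSdef]
    unfold S0 h0
    have e1 : ∀ s : Finset (Fin n), (if l₀ ≤ Real.log (∏ i ∈ s, p i) then
        ∑ j ∈ Finset.Icc 1 J, (if Real.log (∏ i ∈ s, p i) ≤ xs l₀ lam j then
          1 / xs l₀ lam j else 0) else 0) * ∏ i ∈ s, g i =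
        ∑ j ∈ Finset.Icc 1 J, (if l₀ ≤ Real.log (∏ i ∈ s, p i) ∧
          Real.log (∏ i ∈ s, p i) ≤ xs l₀ lam j then (∏ i ∈ s, g i) / xs l₀ lam j else 0) := by
      intro s
      split_ifs with h1
      · rw [Finset.sum_mul]
        refine Finset.sum_congr rfl fun j _ => ?_
        by_cases h2 : Real.log (∏ i ∈ s, p i) ≤ xs l₀ lam j
        · rw [if_pos h2, if_pos ⟨h1, h2⟩]
          ring
        · rw [if_neg h2, if_neg (fun h => h2 h.2), zero_mul]
      · rw [zero_mul]
        symm
        refine Finset.sum_eq_zero fun j _ => ?_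
        rw [if_neg (fun h => h1 h.1)]
    simp_rw [e1]
    rw [Finset.sum_comm]
    refine Finset.sum_congr rfl fun j _ => ?_
    unfold Mj
    rw [← Finset.sum_filter, Finset.sum_div]
  have hsum1 : ∑ s : Finset (Fin n) with s.Nonempty,
      (1 / S * h0 p l₀ lam J s) * ∏ i ∈ s, g i = 1 := by
    have e1 : ∑ s : Finset (Fin n) with s.Nonempty,
        (1 / S * h0 p l₀ lam J s) * ∏ i ∈ s, g i =
        ∑ s : Finset (Fin n), (1 / S * h0 p l₀ lam J s) * ∏ i ∈ s, g i := by
      rw [Finset.sum_filter]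
      refine Finset.sum_congr rfl fun s _ => ?_
      split_ifs with h1
      · rfl
      · have : h0 p l₀ lam J s = 0 := by
          by_contra h2
          exact h1 (hne s h2)
        rw [this]
        simp
    rw [e1]
    have e2 : ∑ s : Finset (Fin n), (1 / S * h0 p l₀ lam J s) * ∏ i ∈ s, g i =
        1 / S * ∑ s : Finset (Fin n), h0 p l₀ lam J s * ∏ i ∈ s, g i := by
      rw [Finset.mul_sum]
      refine Finset.sum_congr rfl fun s _ => ?_
      ring
    rw [e2, hsumS]
    field_simp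
  have hc : 0 < 1 / S := by positivity
  refine ⟨hp, hg, ?_, ?_, ?_, ?_, ?_, ?_, hsum1, ?_⟩
  · exact Real.one_lt_exp_iff.2 (hxp J)
  · positivity
  · intro s
    exact mul_nonneg hc.le (hh0 s)
  · intro s
    calc 1 / S * h0 p l₀ lam J s ≤ 1 / S * S :=
          mul_le_mul_of_nonneg_left ((hhmax s).trans hSmax) hc.le
      _ = 1 := by field_simp
  · -- membership bound
    intro i
    have hanti : ∀ t : Finset (Fin n), i ∉ t → l₀ ≤ Real.log (∏ j ∈ t, p j) →
        h0 p l₀ lam J (insert i t) ≤ h0 p l₀ lam J t := by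
      intro t _ ht
      have hm := hlogmono t (insert i t) (Finset.subset_insert i t)
      unfold h0
      rw [if_pos ht, if_pos (ht.trans hm)]
      refine Finset.sum_le_sum fun j _ => ?_
      have := hxp j
      by_cases h1 : Real.log (∏ j ∈ insert i t, p j) ≤ xs l₀ lam j
      · rw [if_pos h1, if_pos (hm.trans h1)]
      · rw [if_neg h1]
        split_ifs <;> positivity
    have e1 : ∑ s : Finset (Fin n) with i ∈ s, (1 / S * h0 p l₀ lam J s) * ∏ j ∈ s, g j =
        ∑ t : Finset (Fin n) with i ∉ t,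
          (1 / S * h0 p l₀ lam J (insert i t)) * (g i * ∏ j ∈ t, g j) := by
      refine Finset.sum_bij' (fun s _ => s.erase i) (fun t _ => insert i t) ?_ ?_ ?_ ?_ ?_
      · intro s hs
        rw [Finset.mem_filter]
        exact ⟨mem_univ _, Finset.notMem_erase i s⟩
      · intro t ht
        rw [Finset.mem_filter]
        exact ⟨mem_univ _, Finset.mem_insert_self i t⟩
      · intro s hs
        exact Finset.insert_erase (Finset.mem_filter.1 hs).2
      · intro t ht
        exact Finset.erase_insert (Finset.mem_filter.1 ht).2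
      · intro s hs
        have h1 := (Finset.mem_filter.1 hs).2
        rw [Finset.insert_erase h1, Finset.mul_prod_erase s g h1]
    rw [e1]
    have e2 : ∀ t : Finset (Fin n), t ∈ univ.filter (fun t : Finset (Fin n) => i ∉ t) →
        (1 / S * h0 p l₀ lam J (insert i t)) * (g i * ∏ j ∈ t, g j) ≤
        g i * (1 / S * (h0 p l₀ lam J t * ∏ j ∈ t, g j) +
          1 / S * (if Real.log (∏ j ∈ t, p j) < l₀ then
            1 / (l₀ * (lam - 1)) * ∏ j ∈ t, g j else 0)) := by
      intro t ht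
      have hit := (Finset.mem_filter.1 ht).2
      have hgi := (hg i).le
      have hgt := (hGpos t).le
      by_cases hlt : Real.log (∏ j ∈ t, p j) < l₀
      · rw [if_pos hlt]
        have h1 := hhmax (insert i t)
        have h2 := hh0 t
        have h3 : 1 / S * h0 p l₀ lam J (insert i t) * (g i * ∏ j ∈ t, g j) ≤
            1 / S * (1 / (l₀ * (lam - 1))) * (g i * ∏ j ∈ t, g j) :=
          mul_le_mul_of_nonneg_right (mul_le_mul_of_nonneg_left h1 hc.le) (mul_nonneg hgi hgt)
        have h4 : 0 ≤ g i * (1 / S * (h0 p l₀ lam J t * ∏ j ∈ t, g j)) := by positivity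
        calc 1 / S * h0 p l₀ lam J (insert i t) * (g i * ∏ j ∈ t, g j)
            ≤ 1 / S * (1 / (l₀ * (lam - 1))) * (g i * ∏ j ∈ t, g j) := h3
          _ ≤ g i * (1 / S * (h0 p l₀ lam J t * ∏ j ∈ t, g j)) +
              1 / S * (1 / (l₀ * (lam - 1))) * (g i * ∏ j ∈ t, g j) := by linarith
          _ = _ := by ring
      · rw [if_neg hlt, mul_zero, add_zero]
        push Not at hlt
        have h1 := hanti t hit hlt
        have h3 : 1 / S * h0 p l₀ lam J (insert i t) * (g i * ∏ j ∈ t, g j) ≤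
            1 / S * h0 p l₀ lam J t * (g i * ∏ j ∈ t, g j) :=
          mul_le_mul_of_nonneg_right (mul_le_mul_of_nonneg_left h1 hc.le) (mul_nonneg hgi hgt)
        refine h3.trans (le_of_eq ?_)
        ring
    refine (Finset.sum_le_sum e2).trans ?_
    rw [← Finset.mul_sum, Finset.sum_add_distrib, ← Finset.mul_sum, ← Finset.mul_sum]
    have e3 : ∑ t : Finset (Fin n) with i ∉ t, h0 p l₀ lam J t * ∏ j ∈ t, g j ≤ S := by
      rw [← hsumS]
      exact Finset.sum_le_sum_of_subset_of_nonneg (Finset.subset_univ _) fun s _ _ =>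
        mul_nonneg (hh0 s) (hGpos s).le
    have e4 : ∑ t : Finset (Fin n) with i ∉ t, (if Real.log (∏ j ∈ t, p j) < l₀ then
            1 / (l₀ * (lam - 1)) * ∏ j ∈ t, g j else 0) ≤ S := by
      refine le_trans ?_ hsmall
      have e5 : A0 p g l₀ / (l₀ * (lam - 1)) = ∑ t : Finset (Fin n),
          (if Real.log (∏ j ∈ t, p j) < l₀ then 1 / (l₀ * (lam - 1)) * ∏ j ∈ t, g j else 0) := by
        unfold A0
        rw [Finset.sum_filter, Finset.sum_div]
        refine Finset.sum_congr rfl fun t _ => ?_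
        split_ifs
        · ring
        · simp
      rw [e5]
      refine Finset.sum_le_sum_of_subset_of_nonneg (Finset.subset_univ _) fun s _ _ => ?_
      have := (hGpos s).le
      split_ifs
      · positivity
      · exact le_rfl
    have hgi := (hg i).le
    have e6 := mul_le_mul_of_nonneg_left e3 hc.le
    have e7 := mul_le_mul_of_nonneg_left e4 hc.le
    have e8 : 1 / S * S = 1 := by field_simp
    rw [e8] at e6 e7
    calc g i * (_ + _) ≤ g i * (1 + 1) := mul_le_mul_of_nonneg_left (add_le_add e6 e7) hgi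
      _ = 2 * g i := by ring
  · -- support
    intro s hs
    have h1 : h0 p l₀ lam J s ≠ 0 := right_ne_zero_of_mul hs
    have h2 : l₀ ≤ Real.log (∏ i ∈ s, p i) := by
      by_contra h3
      apply h1
      unfold h0
      rw [if_neg h3]
    unfold h0 at h1
    rw [if_pos h2] at h1
    obtain ⟨j, hj, hj0⟩ := Finset.exists_ne_zero_of_sum_ne_zero h1
    have h3 : Real.log (∏ i ∈ s, p i) ≤ xs l₀ lam j := by
      by_contra h4
      exact hj0 (if_neg h4)
    have h4 := h3.trans (xs_mono hl₀ hlam (Finset.mem_Icc.1 hj).2)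
    rw [← Real.exp_log (hPpos s)]
    exact Real.exp_le_exp.2 h4
  · -- cost
    have e1 : ∀ s : Finset (Fin n), s ∈ univ.filter (fun s : Finset (Fin n) => s.Nonempty) →
        (1 / S * h0 p l₀ lam J s) ^ 2 * (∏ i ∈ s, g i) * Real.log (∏ i ∈ s, p i) ≤
        (1 / S * (lam / (lam - 1))) * ((1 / S * h0 p l₀ lam J s) * ∏ i ∈ s, g i) := by
      intro s _
      have hgs := (hGpos s).le
      by_cases h1 : l₀ ≤ Real.log (∏ i ∈ s, p i)
      · have h2 : Real.log (∏ i ∈ s, p i) * h0 p l₀ lam J s ≤ lam / (lam - 1) := by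
          unfold h0
          rw [if_pos h1]
          exact geo_tail hl₀ hlam J _ (lt_of_lt_of_le hl₀ h1)
        have h3 : 0 ≤ (1 / S * h0 p l₀ lam J s) * (∏ i ∈ s, g i) * (1 / S) := by
          have := hh0 s
          positivity
        calc (1 / S * h0 p l₀ lam J s) ^ 2 * (∏ i ∈ s, g i) * Real.log (∏ i ∈ s, p i)
            = ((1 / S * h0 p l₀ lam J s) * (∏ i ∈ s, g i) * (1 / S)) *
              (Real.log (∏ i ∈ s, p i) * h0 p l₀ lam J s) := by ring
          _ ≤ ((1 / S * h0 p l₀ lam J s) * (∏ i ∈ s, g i) * (1 / S)) * (lam / (lam - 1)) :=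
            mul_le_mul_of_nonneg_left h2 h3
          _ = _ := by ring
      · have : h0 p l₀ lam J s = 0 := by
          unfold h0
          rw [if_neg h1]
        rw [this]
        simp
    refine (Finset.sum_le_sum e1).trans ?_
    rw [← Finset.mul_sum, hsum1, mul_one]

/-- sizes in the support of the profile -/
lemma prof_supp_ge (p g : Fin n → ℝ) (l₀ lam : ℝ) (J : ℕ) (c : ℝ) (s : Finset (Fin n))
    (hs : c * h0 p l₀ lam J s ≠ 0) : l₀ ≤ Real.log (∏ i ∈ s, p i) := by
  have h1 : h0 p l₀ lam J s ≠ 0 := right_ne_zero_of_mul hs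
  by_contra h3
  apply h1
  unfold h0
  rw [if_neg h3]

/-- lower bound of the normalising sum -/
lemma S0_lower (p g : Fin n → ℝ) (l₀ lam W A : ℝ) (hl₀ : 0 < l₀) (hlam : 1 < lam) (J : ℕ)
    (hA0 : 0 ≤ A) (hM : ∀ j ∈ Finset.Icc 1 J, W * xs l₀ lam j - A ≤ Mj p g l₀ lam j) :
    W * J - A / (l₀ * (lam - 1)) ≤ S0 p g l₀ lam J := by
  unfold S0
  have h1 : ∀ j ∈ Finset.Icc 1 J, W - A * (1 / xs l₀ lam j) ≤ Mj p g l₀ lam j / xs l₀ lam j := by
    intro j hj
    have hx := xs_pos hl₀ hlam j
    rw [le_div_iff₀ hx]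
    have := hM j hj
    have e : (W - A * (1 / xs l₀ lam j)) * xs l₀ lam j = W * xs l₀ lam j - A := by
      field_simp
    linarith
  refine le_trans ?_ (Finset.sum_le_sum h1)
  rw [Finset.sum_sub_distrib, Finset.sum_const, Nat.card_Icc, Nat.add_sub_cancel, nsmul_eq_mul,
    ← Finset.mul_sum]
  have h2 := mul_le_mul_of_nonneg_left (geo_all hl₀ hlam J) hA0
  have e : A * (1 / (l₀ * (lam - 1))) = A / (l₀ * (lam - 1)) := by ring
  linarith

end Pool.Agent.H50.RC
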