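import Mathlib
import Pool.Agent.H50.RK.Smooth
import Pool.Agent.H50.RK.Surv

set_option autoImplicit false

/-! # Smooth numbers: Rankin's trick with logarithmic weights -/

namespace Pool.Agent.H50.RC.Sm

open Finset Pool.Agent.H50.Cr

open scoped Classical

/-- `v`-smooth integers up to `L` -/
noncomputable def S (v L : ℕ) : Finset ℕ :=
  (Icc 1 L).filter (fun n => ∀ p : ℕ, p.Prime → p ∣ n → p ≤ v)

lemma mem_S {v L n : ℕ} : n ∈ S v L ↔ (1 ≤ n ∧ n ≤ L) ∧ ∀ p : ℕ, p.Prime → p ∣ n → p ≤ v := by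
  unfold S
  rw [mem_filter, mem_Icc]

lemma log_eq {v L n : ℕ} (hn : n ∈ S v L) :
    Real.log n = ∑ p ∈ Pz v, ∑ i ∈ Ico 1 (L + 1), (if p ^ i ∣ n then Real.log p else 0) := by
  obtain ⟨⟨h1, h2⟩, h3⟩ := mem_S.1 hn
  rw [Real.log_nat_eq_sum_factorization, Finsupp.sum]
  have h4 : n.factorization.support ⊆ Pz v := by
    intro p hp
    rw [Nat.support_factorization, Nat.mem_primeFactors] at hp
    rw [mem_Pz]
    exact ⟨hp.1, h3 p hp.1 hp.2.1⟩
  rw [Finset.sum_subset h4 (fun p _ hp => by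
    rw [Finsupp.notMem_support_iff] at hp
    rw [hp]; simp)]
  refine Finset.sum_congr rfl fun p hp => ?_
  have hpp := (mem_Pz.1 hp).1
  have hb : n < p ^ (L + 1) := by
    calc n ≤ L := h2
      _ < 2 ^ (L + 1) := by
        have := Nat.lt_two_pow_self (n := L)
        calc L < 2 ^ L := this
          _ ≤ 2 ^ (L + 1) := Nat.pow_le_pow_right (by norm_num) (Nat.le_succ L)
      _ ≤ p ^ (L + 1) := Nat.pow_le_pow_left hpp.two_le _
  rw [Nat.factorization_eq_card_pow_dvd_of_lt hpp (by omega) hb, ← Finset.sum_filter,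
    Finset.sum_const, nsmul_eq_mul]

lemma card_mult (v L p i : ℕ) (hp : p.Prime) :
    ((S v L).filter (fun n => p ^ i ∣ n)).card ≤ ((S v L).filter (fun m => p ^ i * m ≤ L)).card := by
  have hpi : 0 < p ^ i := pow_pos hp.pos i
  refine Finset.card_le_card_of_injOn (fun n => n / p ^ i) ?_ ?_
  · intro n hn
    rw [Finset.mem_coe, mem_filter, mem_S] at hn
    rw [Finset.mem_coe, mem_filter, mem_S]
    obtain ⟨⟨⟨h1, h2⟩, h3⟩, h4⟩ := hn
    obtain ⟨m, rfl⟩ := h4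
    simp only [Nat.mul_div_cancel_left _ hpi]
    have hm : 1 ≤ m := by
      rcases Nat.eq_zero_or_pos m with h | h
      · rw [h] at h1; simp at h1
      · exact h
    have hmL : m ≤ p ^ i * m := Nat.le_mul_of_pos_left m hpi
    exact ⟨⟨⟨hm, hmL.trans h2⟩, fun q hq hqm => h3 q hq (hqm.mul_left _)⟩, h2⟩
  · intro a ha b hb hab
    rw [Finset.mem_coe, mem_filter] at ha hb
    obtain ⟨a', rfl⟩ := ha.2
    obtain ⟨b', rfl⟩ := hb.2
    simp only [Nat.mul_div_cancel_left _ hpi] at hab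
    rw [hab]

lemma sum_log_le (v L : ℕ) :
    ∑ n ∈ S v L, Real.log n ≤ ∑ m ∈ S v L, ((Pz (min v (L / m))).card : ℝ) *
      Real.log ((L / m : ℕ) : ℝ) := by
  have e1 : ∑ n ∈ S v L, Real.log n = ∑ p ∈ Pz v, ∑ i ∈ Ico 1 (L + 1),
      Real.log p * (((S v L).filter (fun n => p ^ i ∣ n)).card : ℝ) := by
    rw [Finset.sum_congr rfl fun n hn => log_eq hn, Finset.sum_comm]
    refine Finset.sum_congr rfl fun p _ => ?_
    rw [Finset.sum_comm]
    refine Finset.sum_congr rfl fun i _ => ?_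
    rw [← Finset.sum_filter, Finset.sum_const, nsmul_eq_mul, mul_comm]
  rw [e1]
  have e2 : ∑ p ∈ Pz v, ∑ i ∈ Ico 1 (L + 1),
      Real.log p * (((S v L).filter (fun n => p ^ i ∣ n)).card : ℝ) ≤
      ∑ p ∈ Pz v, ∑ i ∈ Ico 1 (L + 1),
      Real.log p * (((S v L).filter (fun m => p ^ i * m ≤ L)).card : ℝ) := by
    refine Finset.sum_le_sum fun p hp => Finset.sum_le_sum fun i _ => ?_
    have hpp := (mem_Pz.1 hp).1
    have hlp : 0 ≤ Real.log p := Real.log_nonneg (by exact_mod_cast hpp.one_lt.le)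
    exact mul_le_mul_of_nonneg_left (by exact_mod_cast card_mult v L p i hpp) hlp
  refine e2.trans ?_
  have e3 : ∑ p ∈ Pz v, ∑ i ∈ Ico 1 (L + 1),
      Real.log p * (((S v L).filter (fun m => p ^ i * m ≤ L)).card : ℝ) =
      ∑ m ∈ S v L, ∑ p ∈ Pz v, (((Ico 1 (L + 1)).filter (fun i => p ^ i * m ≤ L)).card : ℝ) *
        Real.log p := by
    have e4 : ∀ p i : ℕ, Real.log p * (((S v L).filter (fun m => p ^ i * m ≤ L)).card : ℝ) =
        ∑ m ∈ S v L, (if p ^ i * m ≤ L then Real.log p else 0) := by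
      intro p i
      rw [← Finset.sum_filter, Finset.sum_const, nsmul_eq_mul, mul_comm]
    simp_rw [e4]
    rw [Finset.sum_congr rfl fun p _ => Finset.sum_comm, Finset.sum_comm]
    refine Finset.sum_congr rfl fun m _ => Finset.sum_congr rfl fun p _ => ?_
    rw [← Finset.sum_filter, Finset.sum_const, nsmul_eq_mul]
  rw [e3]
  refine Finset.sum_le_sum fun m hm => ?_
  obtain ⟨⟨hm1, hm2⟩, _⟩ := mem_S.1 hm
  set k := L / m with hk
  have hk1 : 1 ≤ k := (Nat.one_le_div_iff hm1).2 hm2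
  have hlk : 0 ≤ Real.log (k : ℝ) := Real.log_nonneg (by exact_mod_cast hk1)
  have e5 : ∀ p ∈ Pz v, (((Ico 1 (L + 1)).filter (fun i => p ^ i * m ≤ L)).card : ℝ) *
      Real.log p ≤ if p ≤ k then Real.log (k : ℝ) else 0 := by
    intro p hp
    have hpp := (mem_Pz.1 hp).1
    have hlp : 0 ≤ Real.log p := Real.log_nonneg (by exact_mod_cast hpp.one_lt.le)
    have hiff : ∀ i, p ^ i * m ≤ L ↔ p ^ i ≤ k := fun i => (Nat.le_div_iff_mul_le hm1).symm
    split_ifs with hpk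
    · have h1 : (Ico 1 (L + 1)).filter (fun i => p ^ i * m ≤ L) ⊆ Icc 1 (Nat.log p k) := by
        intro i hi
        rw [mem_filter, mem_Ico, hiff] at hi
        rw [mem_Icc]
        exact ⟨hi.1.1, (Nat.le_log_iff_pow_le hpp.one_lt (by omega)).2 hi.2⟩
      have h2 := Finset.card_le_card h1
      rw [Nat.card_Icc, Nat.add_sub_cancel] at h2
      have h3 : ((Nat.log p k : ℕ) : ℝ) * Real.log p ≤ Real.log k := by
        rw [← Real.log_pow]
        apply Real.log_le_log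
        · have := hpp.pos
          positivity
        · exact_mod_cast Nat.pow_log_le_self p (by omega)
      calc _ ≤ ((Nat.log p k : ℕ) : ℝ) * Real.log p :=
            mul_le_mul_of_nonneg_right (by exact_mod_cast h2) hlp
        _ ≤ _ := h3
    · have h1 : (Ico 1 (L + 1)).filter (fun i => p ^ i * m ≤ L) = ∅ := by
        rw [Finset.filter_eq_empty_iff]
        intro i hi
        rw [mem_Ico] at hi
        rw [hiff]
        intro h
        apply hpk
        calc p = p ^ 1 := (pow_one p).symm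
          _ ≤ p ^ i := Nat.pow_le_pow_right hpp.pos hi.1
          _ ≤ k := h
      rw [h1]
      simp
  refine (Finset.sum_le_sum e5).trans ?_
  rw [← Finset.sum_filter, Finset.sum_const, nsmul_eq_mul]
  apply mul_le_mul_of_nonneg_right _ hlk
  have h6 : (Pz v).filter (fun p => p ≤ k) ⊆ Pz (min v k) := by
    intro p hp
    rw [mem_filter, mem_Pz] at hp
    rw [mem_Pz]
    exact ⟨hp.1.1, le_min hp.1.2 hp.2⟩
  exact_mod_cast Finset.card_le_card h6

lemma Pz_card (N : ℕ) (hN : 2 ≤ N) : ((Pz N).card : ℝ) ≤ 10 * (N : ℝ) / Real.log N := by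
  have h := Pool.Agent.H50.RK.primes_le N hN
  have e : Pz N = (Icc 1 N).filter Nat.Prime := by
    ext p
    rw [mem_Pz, mem_filter, mem_Icc]
    constructor
    · rintro ⟨h1, h2⟩
      exact ⟨⟨h1.one_lt.le, h2⟩, h1⟩
    · rintro ⟨⟨_, h2⟩, h1⟩
      exact ⟨h1, h2⟩
  rw [e]
  exact h

lemma log_le_two_rpow (t σ : ℝ) (ht : 1 ≤ t) (hσ : 1 / 2 ≤ σ) : Real.log t ≤ 2 * t ^ σ := by
  have h1 := Real.log_le_rpow_div (show (0:ℝ) ≤ t by linarith) (ε := 1 / 2) (by norm_num)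
  have h2 : t ^ (1 / 2 : ℝ) ≤ t ^ σ := Real.rpow_le_rpow_of_exponent_le ht hσ
  linarith

/-- the prime powers -/
lemma prime_pow_bound (v k : ℕ) (hv : 2 ≤ v) (hk : 1 ≤ k) (η : ℝ) (hη0 : 0 ≤ η)
    (hη : η ≤ 1 / 4) :
    ((Pz (min v k)).card : ℝ) * Real.log (k : ℝ) ≤ 40 * (v : ℝ) ^ η * (k : ℝ) ^ (1 - η) := by
  have hv2 : (2:ℝ) ≤ v := by exact_mod_cast hv
  have hv0 : (0:ℝ) < v := by linarith
  rcases Nat.lt_or_ge k 2 with h1 | h1
  · have : k = 1 := by omega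
    rw [this]
    simp
    positivity
  have hk2 : (2:ℝ) ≤ k := by exact_mod_cast h1
  have hk0 : (0:ℝ) < k := by linarith
  have hlk : 0 < Real.log k := Real.log_pos (by linarith)
  have hlv : 0 < Real.log v := Real.log_pos (by linarith)
  rcases le_or_gt k v with h2 | h2
  · rw [min_eq_right h2]
    have h3 := mul_le_mul_of_nonneg_right (Pz_card k h1) hlk.le
    have h4 : 10 * (k : ℝ) / Real.log k * Real.log k = 10 * k := by field_simp
    rw [h4] at h3
    have h5 : (k : ℝ) = (k : ℝ) ^ η * (k : ℝ) ^ (1 - η) := by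
      rw [← Real.rpow_add hk0]
      simp
    have h6 : (k : ℝ) ^ η ≤ (v : ℝ) ^ η :=
      Real.rpow_le_rpow hk0.le (by exact_mod_cast h2) hη0
    have h7 : 0 < (k : ℝ) ^ (1 - η) := by positivity
    have h8 : 0 < (v : ℝ) ^ η := by positivity
    calc ((Pz k).card : ℝ) * Real.log k ≤ 10 * k := h3
      _ = 10 * ((k : ℝ) ^ η * (k : ℝ) ^ (1 - η)) := by rw [← h5]
      _ ≤ 10 * ((v : ℝ) ^ η * (k : ℝ) ^ (1 - η)) := by gcongr
      _ ≤ 40 * (v : ℝ) ^ η * (k : ℝ) ^ (1 - η) := by nlinarith [mul_pos h8 h7]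
  · rw [min_eq_left h2.le]
    have h3 := mul_le_mul_of_nonneg_right (Pz_card v hv) hlk.le
    set t : ℝ := (k : ℝ) / v with ht
    have ht1 : 1 ≤ t := by
      rw [ht, one_le_div hv0]
      exact_mod_cast h2.le
    have ht0 : 0 < t := by linarith
    have hlkt : Real.log k = Real.log v + Real.log t := by
      rw [ht, Real.log_div hk0.ne' hv0.ne']
      ring
    have h4 : Real.log t ≤ 2 * t ^ (1 - η) := log_le_two_rpow t _ ht1 (by linarith)
    have h5 : (0.69:ℝ) ≤ Real.log v := by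
      have := Real.log_two_gt_d9
      have := Real.log_le_log (by norm_num) hv2
      linarith
    have h6 : 1 ≤ t ^ (1 - η) := Real.one_le_rpow ht1 (by linarith)
    have h7 : Real.log k / Real.log v ≤ 4 * t ^ (1 - η) := by
      rw [div_le_iff₀ hlv, hlkt]
      nlinarith
    have h8 : (v : ℝ) * t ^ (1 - η) = (v : ℝ) ^ η * (k : ℝ) ^ (1 - η) := by
      rw [ht, Real.div_rpow hk0.le hv0.le]
      have h9 : (v : ℝ) = (v : ℝ) ^ η * (v : ℝ) ^ (1 - η) := by
        rw [← Real.rpow_add hv0]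
        simp
      have h10 : (v : ℝ) ^ (1 - η) ≠ 0 := by positivity
      calc (v : ℝ) * ((k : ℝ) ^ (1 - η) / (v : ℝ) ^ (1 - η))
          = ((v : ℝ) ^ η * (v : ℝ) ^ (1 - η)) * ((k : ℝ) ^ (1 - η) / (v : ℝ) ^ (1 - η)) := by
            rw [← h9]
        _ = _ := by field_simp
    calc ((Pz v).card : ℝ) * Real.log k ≤ 10 * (v : ℝ) / Real.log v * Real.log k := h3
      _ = 10 * v * (Real.log k / Real.log v) := by ring
      _ ≤ 10 * v * (4 * t ^ (1 - η)) := by gcongr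
      _ = 40 * (v * t ^ (1 - η)) := by ring
      _ = _ := by rw [h8]; ring

/-- Rankin's trick with logarithmic weights -/
theorem smooth_log : ∃ C : ℝ, 0 < C ∧ ∀ (η : ℝ) (v L : ℕ), 0 ≤ η → η ≤ 1 / 4 → 2 ≤ v → 1 ≤ L →
    ((S v L).card : ℝ) * Real.log L ≤ (2 + 40 * (v : ℝ) ^ η) * (L : ℝ) ^ (1 - η) *
      (C * Real.log v * Real.exp (4 * η * (v : ℝ) ^ η * (Real.log v + C))) := by
  obtain ⟨C, hC, h⟩ := Pool.Agent.H50.RK.euler_le
  refine ⟨C, hC, fun η v L hη0 hη1 hv hL => ?_⟩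
  have h1 := h η v hη0 hη1 hv
  have h2 := Pool.Agent.H50.RK.smooth_tsum (σ := 1 - η) (by linarith) v L
  have hL0 : (0:ℝ) < L := by exact_mod_cast hL
  have hv0 : (0:ℝ) < v := by
    have : 0 < v := by omega
    exact_mod_cast this
  have e1 : ((S v L).card : ℝ) * Real.log L = ∑ n ∈ S v L, Real.log ((L : ℝ) / n) +
      ∑ n ∈ S v L, Real.log n := by
    rw [← Finset.sum_add_distrib, ← nsmul_eq_mul, ← Finset.sum_const]
    refine Finset.sum_congr rfl fun n hn => ?_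
    obtain ⟨⟨hn1, hn2⟩, _⟩ := mem_S.1 hn
    have hn0 : (0:ℝ) < n := by exact_mod_cast hn1
    rw [Real.log_div hL0.ne' hn0.ne']
    ring
  have e2 : ∀ n ∈ S v L, Real.log ((L : ℝ) / n) ≤ 2 * ((L : ℝ) ^ (1 - η) * (n : ℝ) ^ (-(1 - η))) := by
    intro n hn
    obtain ⟨⟨hn1, hn2⟩, _⟩ := mem_S.1 hn
    have hn0 : (0:ℝ) < n := by exact_mod_cast hn1
    have h3 : 1 ≤ (L : ℝ) / n := by
      rw [one_le_div hn0]
      exact_mod_cast hn2
    have h4 := log_le_two_rpow _ (1 - η) h3 (by linarith)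
    have h5 : ((L : ℝ) / n) ^ (1 - η) = (L : ℝ) ^ (1 - η) * (n : ℝ) ^ (-(1 - η)) := by
      rw [Real.div_rpow hL0.le hn0.le, Real.rpow_neg hn0.le, div_eq_mul_inv]
    rw [h5] at h4
    exact h4
  have e3 : ∀ m ∈ S v L, ((Pz (min v (L / m))).card : ℝ) * Real.log ((L / m : ℕ) : ℝ) ≤
      40 * (v : ℝ) ^ η * ((L : ℝ) ^ (1 - η) * (m : ℝ) ^ (-(1 - η))) := by
    intro m hm
    obtain ⟨⟨hm1, hm2⟩, _⟩ := mem_S.1 hm
    have hm0 : (0:ℝ) < m := by exact_mod_cast hm1
    have hk1 : 1 ≤ L / m := (Nat.one_le_div_iff hm1).2 hm2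
    refine (prime_pow_bound v (L / m) hv hk1 η hη0 hη1).trans ?_
    have h3 : ((L / m : ℕ) : ℝ) ≤ (L : ℝ) / m := Nat.cast_div_le
    have h4 : ((L / m : ℕ) : ℝ) ^ (1 - η) ≤ (L : ℝ) ^ (1 - η) * (m : ℝ) ^ (-(1 - η)) := by
      have h5 := Real.rpow_le_rpow (Nat.cast_nonneg _) h3 (show 0 ≤ 1 - η by linarith)
      rw [Real.div_rpow hL0.le hm0.le, div_eq_mul_inv, ← Real.rpow_neg hm0.le] at h5
      exact h5
    exact mul_le_mul_of_nonneg_left h4 (by positivity)
  set T : ℝ := ∑ n ∈ S v L, (n : ℝ) ^ (-(1 - η)) with hT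
  have hT0 : 0 ≤ T := Finset.sum_nonneg fun n _ => by positivity
  have e4 : ((S v L).card : ℝ) * Real.log L ≤ (2 + 40 * (v : ℝ) ^ η) * (L : ℝ) ^ (1 - η) * T := by
    rw [e1]
    calc ∑ n ∈ S v L, Real.log ((L : ℝ) / n) + ∑ n ∈ S v L, Real.log n
        ≤ ∑ n ∈ S v L, 2 * ((L : ℝ) ^ (1 - η) * (n : ℝ) ^ (-(1 - η))) +
          ∑ m ∈ S v L, 40 * (v : ℝ) ^ η * ((L : ℝ) ^ (1 - η) * (m : ℝ) ^ (-(1 - η))) :=
          add_le_add (Finset.sum_le_sum e2) ((sum_log_le v L).trans (Finset.sum_le_sum e3))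
      _ = _ := by
          simp_rw [← Finset.mul_sum]
          rw [hT]
          ring
  refine e4.trans ?_
  apply mul_le_mul_of_nonneg_left (h2.trans h1) (by positivity)

end Pool.Agent.H50.RC.Sm
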