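import Pool.Agent.H50.RC.Sm
import Pool.Agent.H50.RC.Rg
import Pool.Agent.H50.SC.R
import Pool.Agent.H50.SC.Par

set_option autoImplicit false
set_option linter.unusedVariables false

/-! # Survivors of the Erdős–Rankin sieve, sharp count -/

namespace Pool.Agent.H50.RC

open Finset Filter Pool.Agent.H50.Cr

open scoped Classical

lemma ev_A1 (η : ℝ) (hη : 0 < η) : ∀ᶠ t : ℝ in atTop, 16 * (Real.log t + 1) ≤ η * t ^ (η / 2) := by
  have h1 := (isLittleO_log_rpow_atTop (show 0 < η / 2 by positivity)).def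
    (show (0:ℝ) < η / 32 by positivity)
  have h2 : Tendsto (fun t : ℝ => t ^ (η / 2)) atTop atTop := tendsto_rpow_atTop (by positivity)
  filter_upwards [h1, h2.eventually_ge_atTop (32 / η), eventually_ge_atTop (1:ℝ)] with t a1 a2 a3
  rw [Real.norm_eq_abs, Real.norm_eq_abs, abs_of_nonneg (Real.log_nonneg a3),
    abs_of_nonneg (Real.rpow_nonneg (by linarith) _)] at a1
  rw [div_le_iff₀ hη] at a2
  linarith

lemma ev_A2 (η C : ℝ) (hη : 0 < η) (hC : 0 < C) :
    ∀ᶠ t : ℝ in atTop, (2 + 40 * t) * C ≤ Real.exp (η / 4 * t) := by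
  have h1 : Tendsto (fun t : ℝ => Real.exp (η / 4 * t) / t ^ (1:ℝ)) atTop atTop :=
    tendsto_exp_mul_div_rpow_atTop 1 (η / 4) (by positivity)
  filter_upwards [h1.eventually_ge_atTop (42 * C), eventually_ge_atTop (1:ℝ)] with t a1 a2
  rw [Real.rpow_one, le_div_iff₀ (by linarith)] at a1
  nlinarith

/-- few smooth numbers -/
theorem smooth_ev (η : ℝ) (hη : 0 < η) (hη1 : η < 1 / 2) : ∀ᶠ L : ℝ in atTop, ∀ h : ℕ,
    L ≤ h → ((Sm.S ⌊Real.exp ((1 - η) * Real.log L * Real.log (Real.log (Real.log L)) /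
      Real.log (Real.log L))⌋₊ h).card : ℝ) ≤ h / Real.log L := by
  obtain ⟨C, hC, hsm⟩ := Sm.smooth_log
  have T1 : Tendsto (fun L : ℝ => Real.log L) atTop atTop := Real.tendsto_log_atTop
  have T2 : Tendsto (fun L : ℝ => Real.log (Real.log L)) atTop atTop :=
    Real.tendsto_log_atTop.comp T1
  have T3 : Tendsto (fun L : ℝ => Real.log (Real.log (Real.log L))) atTop atTop :=
    Real.tendsto_log_atTop.comp T2
  have g1 := T1.eventually (Pool.Agent.H50.SC.ev_log (show (0:ℝ) < 1 / (8 * (C + 1)) by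
    positivity))
  filter_upwards [g1, T1.eventually_ge_atTop 1, T2.eventually_ge_atTop 1, T3.eventually_ge_atTop 1,
    T2.eventually (ev_A1 η hη), T2.eventually (ev_A2 η C hη hC),
    T2.eventually (Pool.Agent.H50.SC.ev_log one_pos),
    eventually_ge_atTop (1:ℝ)] with L b1 b2 b3 b4 b5 b6 b7 b8
  intro h hh
  obtain ⟨l, hl⟩ : ∃ l, l = Real.log L := ⟨_, rfl⟩
  rw [← hl] at b1 b2 b3 b4 b5 b6 b7 ⊢
  obtain ⟨t, ht⟩ : ∃ t, t = Real.log l := ⟨_, rfl⟩
  rw [← ht] at b1 b3 b4 b5 b6 b7 ⊢
  obtain ⟨s, hs⟩ : ∃ s, s = Real.log t := ⟨_, rfl⟩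
  rw [← hs] at b4 b5 b7 ⊢
  have hl0 : 0 < l := by linarith
  have ht0 : 0 < t := by linarith
  have hs0 : 0 < s := by linarith
  have hL0 : 0 < L := by linarith
  have hLl : L = Real.exp l := by rw [hl, Real.exp_log hL0]
  have hlt : l = Real.exp t := by rw [ht, Real.exp_log hl0]
  have hts : t = Real.exp s := by rw [hs, Real.exp_log ht0]
  have h1η : 0 < 1 - η := by linarith
  set V : ℝ := (1 - η) * l * s / t with hV
  have hV0 : 0 < V := by positivity
  -- V is at least 1
  have hlt2 : 8 * t ≤ l := by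
    rw [div_mul_eq_mul_div, one_mul, le_div_iff₀ (by positivity)] at b1
    nlinarith
  have hV1 : 1 ≤ V := by
    rw [hV, le_div_iff₀ ht0]
    have h1 : (1:ℝ) / 2 ≤ 1 - η := by linarith
    have h2 : 0 < l * s := by positivity
    have h3 : l ≤ l * s := by nlinarith
    nlinarith
  have hVl : V ≤ l := by
    rw [hV, div_le_iff₀ ht0]
    have h1 : s ≤ t := by linarith
    have h2 : l * s ≤ l * t := mul_le_mul_of_nonneg_left h1 hl0.le
    have h3 : 0 ≤ η * (l * s) := by positivity
    nlinarith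
  set v : ℕ := ⌊Real.exp V⌋₊ with hv
  have hv2 : 2 ≤ v := by
    apply Nat.le_floor
    push_cast
    have := Real.add_one_le_exp V
    linarith
  have hvV : (v : ℝ) ≤ Real.exp V := Nat.floor_le (Real.exp_pos _).le
  have hv0 : (0:ℝ) < v := by
    have : 0 < v := by omega
    exact_mod_cast this
  have hlv : Real.log v ≤ V := by
    rw [← Real.log_exp V]
    exact Real.log_le_log hv0 hvV
  have hlv0 : 0 < Real.log v := Real.log_pos (by
    have : 1 < v := by omega
    exact_mod_cast this)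
  have hh1 : 1 ≤ h := by
    have : (1:ℝ) ≤ h := by linarith
    exact_mod_cast this
  have hh0 : (0:ℝ) < h := by linarith
  have hlh : l ≤ Real.log h := by
    rw [hl]
    exact Real.log_le_log hL0 hh
  -- the exponent
  set η' : ℝ := (1 - η / 2) * t / ((1 - η) * l) with hη'
  have hη'0 : 0 < η' := by
    have : 0 < 1 - η / 2 := by linarith
    positivity
  have hη't : η' ≤ 2 * t / l := by
    rw [hη', div_le_div_iff₀ (by positivity) hl0]
    have h1 : 1 - η / 2 ≤ 2 * (1 - η) := by linarith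
    have h2 : 0 < t * l := by positivity
    nlinarith
  have hη'1 : η' ≤ 1 / 4 := by
    refine hη't.trans ?_
    rw [div_le_div_iff₀ hl0 (by norm_num)]
    linarith
  have hη'C : η' * C ≤ 1 := by
    have h1 : η' * C ≤ 2 * t / l * C := mul_le_mul_of_nonneg_right hη't hC.le
    have h2 : 2 * t / l * C ≤ 1 := by
      rw [div_mul_eq_mul_div, div_le_one hl0]
      rw [div_mul_eq_mul_div, one_mul, le_div_iff₀ (by positivity)] at b1
      nlinarith
    linarith
  have hη'V : η' * V = (1 - η / 2) * s := by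
    rw [hη', hV]
    field_simp
  set w : ℝ := Real.exp ((1 - η / 2) * s) with hw
  have hw0 : 0 < w := Real.exp_pos _
  have hwt : w = t ^ (1 - η / 2) := by
    rw [hw, Real.rpow_def_of_pos ht0, ← hs, mul_comm]
  have hwt1 : w ≤ t := by
    rw [hwt]
    calc t ^ (1 - η / 2) ≤ t ^ (1:ℝ) := Real.rpow_le_rpow_of_exponent_le b3 (by linarith)
      _ = t := Real.rpow_one t
  have hvw : (v : ℝ) ^ η' ≤ w := by
    calc (v : ℝ) ^ η' ≤ (Real.exp V) ^ η' := Real.rpow_le_rpow hv0.le hvV hη'0.le
      _ = w := by rw [← Real.exp_mul, hw, mul_comm V, hη'V]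
  have hmain := hsm η' v h hη'0.le hη'1 hv2 hh1
  -- the exponential factor
  have hexp1 : 4 * η' * (v : ℝ) ^ η' * (Real.log v + C) ≤ 4 * w * (s + 1) := by
    have h1 : 4 * η' * (v : ℝ) ^ η' * (Real.log v + C) ≤ 4 * η' * w * (V + C) := by
      gcongr
    have h2 : 4 * η' * w * (V + C) = 4 * w * (η' * V + η' * C) := by ring
    have h3 : η' * V + η' * C ≤ s + 1 := by
      rw [hη'V]
      nlinarith
    rw [h2] at h1
    exact h1.trans (mul_le_mul_of_nonneg_left h3 (by positivity))
  have hexp2 : 4 * w * (s + 1) ≤ η / 4 * t := by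
    have h1 : w * t ^ (η / 2) = t := by
      rw [hwt, ← Real.rpow_add ht0]
      simp
    have h2 : 16 * (s + 1) * w ≤ η * t ^ (η / 2) * w := mul_le_mul_of_nonneg_right b5 hw0.le
    have h3 : η * t ^ (η / 2) * w = η * t := by rw [mul_assoc, mul_comm (t ^ (η / 2)), h1]
    nlinarith
  have hpow : (h : ℝ) ^ (1 - η') ≤ h * Real.exp (-((1 + η / 2) * t)) := by
    rw [sub_eq_add_neg, Real.rpow_add hh0, Real.rpow_one]
    apply mul_le_mul_of_nonneg_left _ hh0.le
    rw [Real.rpow_def_of_pos hh0]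
    apply Real.exp_le_exp.2
    have h1 : η' * l ≤ η' * Real.log h := mul_le_mul_of_nonneg_left hlh hη'0.le
    have h2 : (1 + η / 2) * t ≤ η' * l := by
      have h3 : η' * l = (1 - η / 2) * t / (1 - η) := by
        rw [hη']
        field_simp
      rw [h3, le_div_iff₀ h1η]
      have h4 : 0 ≤ η * η * t := by positivity
      nlinarith
    nlinarith
  have hA : (2 + 40 * (v : ℝ) ^ η') * C ≤ Real.exp (η / 4 * t) := by
    refine le_trans ?_ b6
    apply mul_le_mul_of_nonneg_right _ hC.le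
    linarith
  have hcard0 : (0:ℝ) ≤ ((Sm.S v h).card : ℝ) := Nat.cast_nonneg _
  have hfin : ((Sm.S v h).card : ℝ) * Real.log h ≤ Real.log h * (h / l) := by
    calc ((Sm.S v h).card : ℝ) * Real.log h
        ≤ (2 + 40 * (v : ℝ) ^ η') * (h : ℝ) ^ (1 - η') *
          (C * Real.log v * Real.exp (4 * η' * (v : ℝ) ^ η' * (Real.log v + C))) := hmain
      _ = ((2 + 40 * (v : ℝ) ^ η') * C) * (h : ℝ) ^ (1 - η') * Real.log v *
          Real.exp (4 * η' * (v : ℝ) ^ η' * (Real.log v + C)) := by ring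
      _ ≤ Real.exp (η / 4 * t) * (h * Real.exp (-((1 + η / 2) * t))) * Real.log h *
          Real.exp (η / 4 * t) := by
          have e1 : Real.exp (4 * η' * (v : ℝ) ^ η' * (Real.log v + C)) ≤
              Real.exp (η / 4 * t) := Real.exp_le_exp.2 (hexp1.trans hexp2)
          have e2 : Real.log v ≤ Real.log h := by linarith
          have e3 : 0 ≤ (h : ℝ) ^ (1 - η') := by positivity
          have e4 : 0 ≤ (2 + 40 * (v : ℝ) ^ η') * C := by positivity
          gcongr
      _ = Real.log h * (h * (Real.exp (η / 4 * t) * Real.exp (-((1 + η / 2) * t)) *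
          Real.exp (η / 4 * t))) := by ring
      _ = Real.log h * (h / l) := by
          have e1 : Real.exp (η / 4 * t) * Real.exp (-((1 + η / 2) * t)) *
              Real.exp (η / 4 * t) = 1 / l := by
            rw [← Real.exp_add, ← Real.exp_add, hlt, one_div, ← Real.exp_neg]
            congr 1
            ring
          rw [e1]
          ring
  have hlh0 : 0 < Real.log h := by linarith
  have := hfin
  rw [mul_comm] at this
  exact le_of_mul_le_mul_left this hlh0

end Pool.Agent.H50.RC
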