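import Pool.Agent.H50.RC.Sv2

set_option autoImplicit false
set_option linter.unusedVariables false

/-! # Survivors of the Erdős–Rankin sieve, assembly -/

namespace Pool.Agent.H50.RC

open Finset Filter Pool.Agent.H50.Cr

open scoped Classical

/-- the numerical inequality -/
lemma num_sv (ε : ℝ) (hε : 0 < ε) (hε1 : ε < 1) :
    (1 - ε) * ((1 + 2 * (ε / 20)) * (1 + ε / 20) ^ 2 / (1 - ε / 20)) ≤ 1 - ε / 4 := by
  have h1 : 0 < 1 - ε / 20 := by linarith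
  have h2 : (1 + 2 * (ε / 20)) * (1 + ε / 20) ^ 2 / (1 - ε / 20) ≤ 1 + 6 / 10 * ε := by
    rw [div_le_iff₀ h1]
    nlinarith [mul_pos hε hε, mul_pos (mul_pos hε hε) hε, mul_pos hε (sub_pos.2 hε1),
      mul_pos (mul_pos hε hε) (sub_pos.2 hε1)]
  calc (1 - ε) * ((1 + 2 * (ε / 20)) * (1 + ε / 20) ^ 2 / (1 - ε / 20))
      ≤ (1 - ε) * (1 + 6 / 10 * ε) := mul_le_mul_of_nonneg_left h2 (by linarith)
    _ ≤ 1 - ε / 4 := by nlinarith [mul_pos hε hε]

/-- the eventual facts -/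
lemma facts_sv (η ε₁ C : ℝ) (hη : 0 < η) (hη1 : η < 1 / 2) (hε₁ : 0 < ε₁) :
    ∀ᶠ L : ℝ in atTop, 1 ≤ L ∧ 1 ≤ Real.log L ∧ 1 ≤ Real.log (Real.log L) ∧
      1 ≤ Real.log (Real.log (Real.log L)) ∧
      -(η / 2 * Real.log L) ≤ Real.log ε₁ ∧
      2 ≤ ε₁ * L ∧
      2 * Real.log (Real.log L) ≤ η * Real.log L ∧
      Real.log (Real.log (Real.log L)) ≤ 4 * ε₁ * (Real.log (Real.log L)) ∧
      Real.log (Real.log (Real.log L)) ≤ Real.log (Real.log L) ∧
      (1 + 2 * C) ≤ 2 * η * Real.log (Real.log L) ∧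
      (C + 1) * Real.log (Real.log L) ≤ η / 4 * Real.log L := by
  have T1 : Tendsto (fun L : ℝ => Real.log L) atTop atTop := Real.tendsto_log_atTop
  have T2 : Tendsto (fun L : ℝ => Real.log (Real.log L)) atTop atTop :=
    Real.tendsto_log_atTop.comp T1
  have T3 : Tendsto (fun L : ℝ => Real.log (Real.log (Real.log L))) atTop atTop :=
    Real.tendsto_log_atTop.comp T2
  have T0 : Tendsto (fun L : ℝ => L) atTop atTop := tendsto_id
  have g1 := T1.eventually (Pool.Agent.H50.SC.ev_log (show (0:ℝ) < η / 2 by positivity))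
  have g2 := T2.eventually (Pool.Agent.H50.SC.ev_log (show (0:ℝ) < 4 * ε₁ by positivity))
  have g3 := T2.eventually (Pool.Agent.H50.SC.ev_log (one_pos (α := ℝ)))
  have g4 := T1.eventually (Pool.Agent.H50.SC.ev_log
    (show (0:ℝ) < η / 4 / (|C| + 1) by positivity))
  filter_upwards [g1, g2, g3, g4, T0.eventually_ge_atTop 1, T1.eventually_ge_atTop 1,
    T2.eventually_ge_atTop 1, T3.eventually_ge_atTop 1,
    T1.eventually_ge_atTop (-(Real.log ε₁) / (η / 2)), T0.eventually_ge_atTop (2 / ε₁),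
    T2.eventually_ge_atTop ((1 + 2 * C) / (2 * η))] with L a1 a2 a3 a4 a5 a6 a7 a8 a9 a10 a11
  refine ⟨a5, a6, a7, a8, ?_, ?_, ?_, a2, by linarith, ?_, ?_⟩
  · rw [div_le_iff₀ (by positivity)] at a9
    linarith
  · rw [div_le_iff₀ hε₁] at a10
    linarith
  · linarith
  · rw [div_le_iff₀ (by positivity)] at a11
    linarith
  · have h1 : (C + 1) ≤ |C| + 1 := by linarith [le_abs_self C]
    have h2 : 0 < |C| + 1 := by positivity
    calc (C + 1) * Real.log (Real.log L) ≤ (|C| + 1) * Real.log (Real.log L) :=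
          mul_le_mul_of_nonneg_right h1 (by linarith)
      _ ≤ (|C| + 1) * (η / 4 / (|C| + 1) * Real.log L) := mul_le_mul_of_nonneg_left a4 h2.le
      _ = η / 4 * Real.log L := by field_simp

/-- the sum over primes in the gap -/
lemma gap_sum (η C l t lh lx S : ℝ) (hη : 0 < η) (hη1 : η < 1 / 2) (hC : 0 ≤ C) (hl : 1 ≤ l)
    (ht : 1 ≤ t) (hlx0 : 0 < lx) (hlx : l / (1 + η) ≤ lx) (hlh : lh ≤ lx + 2 * t)
    (hlh0 : 0 < lh)
    (hS : S ≤ Real.log (lh / lx) + C / lx) (hC2 : (1 + 2 * C) ≤ 2 * η * t) :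
    1 / l + S ≤ 2 * t * (1 + 2 * η) / l := by
  have hl0 : 0 < l := by linarith
  have h1 : Real.log (lh / lx) ≤ lh / lx - 1 := Real.log_le_sub_one_of_pos (by positivity)
  have h2 : lh / lx - 1 ≤ 2 * t / lx := by
    rw [div_sub_one hlx0.ne']
    exact div_le_div_of_nonneg_right (by linarith) hlx0.le
  have h3 : 1 / lx ≤ (1 + η) / l := by
    rw [div_le_div_iff₀ hlx0 hl0]
    rw [div_le_iff₀ (by linarith)] at hlx
    linarith
  have h4 : S ≤ (2 * t + C) * (1 / lx) := by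
    calc S ≤ 2 * t / lx + C / lx := by linarith
      _ = (2 * t + C) * (1 / lx) := by ring
  have h5 : S ≤ (2 * t + C) * ((1 + η) / l) :=
    h4.trans (mul_le_mul_of_nonneg_left h3 (by linarith))
  have h6 : 1 / l + (2 * t + C) * ((1 + η) / l) = (1 + (2 * t + C) * (1 + η)) / l := by ring
  have h7 : (1 + (2 * t + C) * (1 + η)) / l ≤ 2 * t * (1 + 2 * η) / l := by
    apply div_le_div_of_nonneg_right _ hl0.le
    have h8 : C * (1 + η) ≤ C * 2 := mul_le_mul_of_nonneg_left (by linarith) hC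
    nlinarith
  linarith

/-- the product up to `exp V` -/
lemma gap_prod (η C l t s lh V : ℝ) (hη : 0 < η) (hη1 : η < 1 / 2) (hC : 0 ≤ C) (hl : 1 ≤ l)
    (ht : 1 ≤ t) (hs : 1 ≤ s) (hV : V = (1 - η) * l * s / t) (hlh : lh ≤ (1 + η) * l)
    (hCV : (C + 1) * t ≤ η / 4 * l) :
    lh / V * Real.exp (C / V) ≤ (1 + η) ^ 2 * t / ((1 - η) * s) := by
  have hl0 : 0 < l := by linarith
  have ht0 : 0 < t := by linarith
  have hs0 : 0 < s := by linarith
  have h1η : 0 < 1 - η := by linarith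
  have hV0 : 0 < V := by rw [hV]; positivity
  have h1 : lh / V ≤ (1 + η) * t / ((1 - η) * s) := by
    rw [div_le_div_iff₀ hV0 (by positivity), hV]
    have e : (1 + η) * t * ((1 - η) * l * s / t) = (1 + η) * l * ((1 - η) * s) := by
      field_simp
    rw [e]
    exact mul_le_mul_of_nonneg_right hlh (by positivity)
  have h2 : C / V ≤ η / 2 := by
    rw [div_le_iff₀ hV0, hV]
    have e : η / 2 * ((1 - η) * l * s / t) = (η / 2 * (1 - η) * l * s) / t := by ring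
    rw [e, le_div_iff₀ ht0]
    have e1 : C * t ≤ η / 4 * l := by linarith
    have e2 : η / 4 * l ≤ η / 2 * (1 - η) * l := by
      apply mul_le_mul_of_nonneg_right _ hl0.le
      nlinarith
    have e3 : η / 2 * (1 - η) * l * 1 ≤ η / 2 * (1 - η) * l * s :=
      mul_le_mul_of_nonneg_left hs (by positivity)
    linarith
  have h3 : Real.exp (C / V) ≤ 1 + η := by
    have e1 : Real.exp (C / V) ≤ Real.exp (η / 2) := Real.exp_le_exp.2 h2
    have e2 : Real.exp (η / 2) ≤ 1 + η := by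
      have h4 := Real.abs_exp_sub_one_le (x := η / 2) (by rw [abs_of_pos (by positivity)]; linarith)
      rw [abs_of_pos (by positivity : (0:ℝ) < η / 2)] at h4
      have h5 := le_abs_self (Real.exp (η / 2) - 1)
      linarith
    linarith
  calc lh / V * Real.exp (C / V) ≤ ((1 + η) * t / ((1 - η) * s)) * (1 + η) :=
        mul_le_mul h1 h3 (Real.exp_pos _).le (by positivity)
    _ = (1 + η) ^ 2 * t / ((1 - η) * s) := by ring

/-- **few survivors** -/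
theorem survivors (ε ε₁ : ℝ) (hε : 0 < ε) (hε1 : ε < 1) (hε₁ : 0 < ε₁) (hε₁1 : ε₁ ≤ 1) :
    ∀ᶠ L : ℝ in atTop, ∀ h : ℕ, L ≤ h →
      (h : ℝ) ≤ 1 / 4 * (1 - ε) * (L * (Real.log L) ^ 2 * Real.log (Real.log (Real.log L)) /
        (Real.log (Real.log L)) ^ 2) →
      ∃ b : ℕ → ℕ, (((Finset.Icc 1 h).filter (fun k => ∀ p : ℕ, p.Prime → (p : ℝ) ≤ ε₁ * L →
        ¬ k ≡ b p [MOD p])).card : ℝ) ≤ (1 - ε / 4) / 2 * L * Real.log L * WW h := by
  obtain ⟨C₁, hC₁0, hC₁⟩ := mertens_real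
  obtain ⟨C₂, hC₂0, hC₂⟩ := WW_ratio
  obtain ⟨C, hC⟩ : ∃ C : ℝ, C = C₁ + C₂ := ⟨_, rfl⟩
  obtain ⟨η, hη⟩ : ∃ η : ℝ, η = ε / 20 := ⟨_, rfl⟩
  have hη0 : 0 < η := by rw [hη]; positivity
  have hη1 : η < 1 / 2 := by rw [hη]; linarith
  have hCC1 : C₁ ≤ C := by rw [hC]; linarith
  have hCC2 : C₂ ≤ C := by rw [hC]; linarith
  have hC0 : 0 ≤ C := by linarith
  filter_upwards [facts_sv η ε₁ C hη0 hη1 hε₁, smooth_ev η hη0 hη1] with L hf hsm
  obtain ⟨f1, f2, f3, f4, f5, f6, f7, f8, f9, f10, f11⟩ := hf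
  intro h hLh hh
  have hsm' := hsm h hLh
  obtain ⟨l, hl⟩ : ∃ l : ℝ, l = Real.log L := ⟨_, rfl⟩
  rw [← hl] at f2 f3 f4 f5 f7 f8 f9 f10 f11 hsm' hh ⊢
  obtain ⟨t, ht⟩ : ∃ t : ℝ, t = Real.log l := ⟨_, rfl⟩
  rw [← ht] at f3 f4 f7 f8 f9 f10 f11 hsm' hh
  obtain ⟨s, hs⟩ : ∃ s : ℝ, s = Real.log t := ⟨_, rfl⟩
  rw [← hs] at f4 f8 f9 hsm' hh
  obtain ⟨V, hV⟩ : ∃ V : ℝ, V = (1 - η) * l * s / t := ⟨_, rfl⟩
  rw [← hV] at hsm'
  have hL0 : 0 < L := by linarith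
  have hl0 : 0 < l := by linarith
  have ht0 : 0 < t := by linarith
  have hs0 : 0 < s := by linarith
  have h1η : 0 < 1 - η := by linarith
  obtain ⟨x, hx⟩ : ∃ x : ℝ, x = ε₁ * L := ⟨_, rfl⟩
  rw [← hx] at f6 ⊢
  have hx0 : 0 < x := by linarith
  have hh0 : (0:ℝ) < h := by linarith
  have hxh : x ≤ h := by
    rw [hx]
    have : ε₁ * L ≤ 1 * L := mul_le_mul_of_nonneg_right hε₁1 hL0.le
    linarith
  -- logarithms
  have hlogx : Real.log x = Real.log ε₁ + l := by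
    rw [hx, Real.log_mul hε₁.ne' hL0.ne', hl]
  have hlx1 : l / (1 + η) ≤ Real.log x := by
    rw [hlogx, div_le_iff₀ (by linarith)]
    have e1 : (l - η / 2 * l) * (1 + η) ≤ (Real.log ε₁ + l) * (1 + η) :=
      mul_le_mul_of_nonneg_right (by linarith) (by linarith)
    have e2 : l ≤ (l - η / 2 * l) * (1 + η) := by nlinarith [mul_pos hη0 hl0]
    linarith
  have hlx0 : 0 < Real.log x := lt_of_lt_of_le (by positivity) hlx1
  have hhx : (h : ℝ) ≤ x * l ^ 2 := by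
    refine hh.trans ?_
    have e1 : s / t ^ 2 ≤ 4 * ε₁ := by
      rw [div_le_iff₀ (by positivity)]
      have : 4 * ε₁ * t * 1 ≤ 4 * ε₁ * t * t := mul_le_mul_of_nonneg_left f3 (by positivity)
      nlinarith
    calc 1 / 4 * (1 - ε) * (L * l ^ 2 * s / t ^ 2) = 1 / 4 * (1 - ε) * (L * l ^ 2) * (s / t ^ 2) := by
          ring
      _ ≤ 1 / 4 * (1 - ε) * (L * l ^ 2) * (4 * ε₁) := by
          apply mul_le_mul_of_nonneg_left e1
          have : 0 ≤ 1 - ε := by linarith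
          positivity
      _ = (1 - ε) * (ε₁ * L * l ^ 2) := by ring
      _ ≤ 1 * (ε₁ * L * l ^ 2) := mul_le_mul_of_nonneg_right (by linarith) (by positivity)
      _ = x * l ^ 2 := by rw [hx]; ring
  have hlogh : Real.log h ≤ Real.log x + 2 * t := by
    calc Real.log h ≤ Real.log (x * l ^ 2) := Real.log_le_log hh0 hhx
      _ = Real.log x + 2 * t := by
        rw [Real.log_mul hx0.ne' (by positivity), Real.log_pow, ht]
        norm_num
  have hlogh' : Real.log h ≤ (1 + η) * l := by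
    have e1 : Real.log ε₁ ≤ 0 := Real.log_nonpos hε₁.le hε₁1
    nlinarith
  have hlogh0 : 0 < Real.log h := lt_of_lt_of_le hlx0 (Real.log_le_log hx0 hxh)
  -- V
  have hV0 : 0 < V := by rw [hV]; positivity
  have hVl : V ≤ (1 - η) * l := by
    rw [hV, div_le_iff₀ ht0]
    exact mul_le_mul_of_nonneg_left f9 (by positivity)
  have hVx : Real.exp V ≤ x := by
    rw [← Real.exp_log hx0]
    apply Real.exp_le_exp.2
    rw [hlogx]
    nlinarith
  have hV2 : (2:ℝ) ≤ Real.exp V := by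
    have e1 : 1 ≤ V := by
      rw [hV, le_div_iff₀ ht0]
      have e2 : t ≤ η / 4 * l := by nlinarith
      have e3 : η / 4 * l ≤ (1 - η) * l := mul_le_mul_of_nonneg_right (by linarith) hl0.le
      have e4 : (1 - η) * l * 1 ≤ (1 - η) * l * s := mul_le_mul_of_nonneg_left f4 (by positivity)
      linarith
    have e2 := Real.add_one_le_exp V
    linarith
  have hx2 : 2 ≤ x := hV2.trans hVx
  obtain ⟨b, hb⟩ := classes ⌊Real.exp V⌋₊ h x hx0.le
    ((Nat.floor_le (Real.exp_pos _).le).trans hVx)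
  refine ⟨b, hb.trans ?_⟩
  have hpz : ∏ p ∈ Pz ⌊Real.exp V⌋₊, (1 - 1 / (p : ℝ)) = WW (Real.exp V) := by
    unfold WW Pz
    refine Finset.prod_congr ?_ fun _ _ => rfl
    ext p
    simp only [Finset.mem_filter, Finset.mem_Ioc, Finset.mem_Icc]
    constructor
    · rintro ⟨⟨h1, h2⟩, h3⟩
      exact ⟨⟨by omega, h2⟩, h3⟩
    · rintro ⟨⟨h1, h2⟩, h3⟩
      exact ⟨⟨by omega, h2⟩, h3⟩
  rw [hpz]
  -- the two estimates
  have hS := (abs_le.1 (hC₁ x h hx2 hxh)).2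
  have hS' : ∑ q ∈ PR x h, 1 / (q : ℝ) ≤ Real.log (Real.log h / Real.log x) + C / Real.log x := by
    have : C₁ / Real.log x ≤ C / Real.log x := div_le_div_of_nonneg_right hCC1 hlx0.le
    linarith
  have hgs := gap_sum η C l t (Real.log h) (Real.log x) _ hη0 hη1 hC0 f2 f3 hlx0 hlx1 hlogh hlogh0
    hS' f10
  have hW := hC₂ (Real.exp V) h hV2 (hVx.trans hxh)
  rw [Real.log_exp] at hW
  have hgp := gap_prod η C₂ l t s (Real.log h) V hη0 hη1 hC₂0 f2 f3 f4 hV hlogh' (by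
    have : (C₂ + 1) * t ≤ (C + 1) * t := mul_le_mul_of_nonneg_right (by linarith) ht0.le
    linarith)
  have hWh := WW_pos (h : ℝ)
  have hWV : WW (Real.exp V) ≤ WW h * ((1 + η) ^ 2 * t / ((1 - η) * s)) :=
    hW.trans (mul_le_mul_of_nonneg_left hgp hWh.le)
  have hfirst : ((Sm.S ⌊Real.exp V⌋₊ h).card : ℝ) + h * ∑ q ∈ PR x h, 1 / (q : ℝ) ≤
      h * (2 * t * (1 + 2 * η) / l) := by
    calc ((Sm.S ⌊Real.exp V⌋₊ h).card : ℝ) + h * ∑ q ∈ PR x h, 1 / (q : ℝ) ≤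
        h / l + h * ∑ q ∈ PR x h, 1 / (q : ℝ) := by linarith
      _ = h * (1 / l + ∑ q ∈ PR x h, 1 / (q : ℝ)) := by ring
      _ ≤ _ := mul_le_mul_of_nonneg_left hgs hh0.le
  have hS0 : 0 ≤ ∑ q ∈ PR x h, 1 / (q : ℝ) := Finset.sum_nonneg fun _ _ => by positivity
  have hnum := num_sv ε hε hε1
  rw [← hη] at hnum
  obtain ⟨Q, hQ⟩ : ∃ Q : ℝ, Q = (1 + 2 * η) * (1 + η) ^ 2 / (1 - η) := ⟨_, rfl⟩
  rw [← hQ] at hnum
  have hQ0 : 0 < Q := by rw [hQ]; positivity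
  have e1 : (((Sm.S ⌊Real.exp V⌋₊ h).card : ℝ) + h * ∑ q ∈ PR x h, 1 / (q : ℝ)) * WW (Real.exp V) ≤
      (h * (2 * t * (1 + 2 * η) / l)) * (WW h * ((1 + η) ^ 2 * t / ((1 - η) * s))) := by
    apply mul_le_mul hfirst hWV (WW_pos _).le
    positivity
  have e2 : (h * (2 * t * (1 + 2 * η) / l)) * (WW h * ((1 + η) ^ 2 * t / ((1 - η) * s))) =
      h * (2 * t ^ 2 / (l * s) * Q * WW h) := by
    rw [hQ]
    field_simp
  have e3 : (h:ℝ) * (2 * t ^ 2 / (l * s) * Q * WW h) ≤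
      (1 / 4 * (1 - ε) * (L * l ^ 2 * s / t ^ 2)) * (2 * t ^ 2 / (l * s) * Q * WW h) := by
    apply mul_le_mul_of_nonneg_right hh
    positivity
  have e4 : (1 / 4 * (1 - ε) * (L * l ^ 2 * s / t ^ 2)) * (2 * t ^ 2 / (l * s) * Q * WW h) =
      ((1 - ε) * Q) * (1 / 2 * L * l * WW h) := by
    field_simp
    ring
  have e5 : ((1 - ε) * Q) * (1 / 2 * L * l * WW h) ≤ (1 - ε / 4) * (1 / 2 * L * l * WW h) :=
    mul_le_mul_of_nonneg_right hnum (by positivity)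
  calc _ ≤ _ := e1
    _ ≤ _ := e2.le.trans (e3.trans (e4.le.trans e5))
    _ = _ := by ring

end Pool.Agent.H50.RC
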